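import Pool.Agent.W_d799b0_g54.SC

/-!
# Candidates for the boundary: the greedy pass

The list `xs` consists of strings in `B \ D`, followed by strings that are not in `B \ D`. In the
greedy pass the strings `f x` are inserted into a list `Q` unless `f x :: Q` passes the test `C`. Let
`b` be the number of the strings in `B \ D`. Before the position `b` only elements of `G n` have been
inserted, so at most `K` elements. If the string at the position `b` is inserted then `b` is the
position of an insertion. Otherwise the strings which pass the test for this `Q` all belong to `B`,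
hence in reversed order they start with strings in `D`, followed by strings not in `D`.
-/

set_option autoImplicit false

namespace Pool.Agent.W_d799b0_g54

section

variable {α : Type} (f : List Bool → α) (C : List α → Bool) (K : ℕ)

/-- one step of the greedy pass -/
def ins (Q : List (α × ℕ)) (x : List Bool × ℕ) : List (α × ℕ) :=
  if decide (K < Q.length) || C (f x.1 :: Q.map fun q => q.1) then Q else (f x.1, x.2) :: Q

/-- the greedy pass -/
def pass (xs : List (List Bool)) : List (α × ℕ) := xs.zipIdx.foldl (ins f C K) []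

/-- the strings that pass the test for `Q`, with their positions -/
def inCl (Q : List (α × ℕ)) (xs : List (List Bool)) : List (List Bool × ℕ) :=
  xs.zipIdx.filter fun x => C (f x.1 :: Q.map fun q => q.1)

/-- the positions of the candidates for the reversed list -/
def candQ (cand : ℕ × List (List Bool) → List ℕ) (n : ℕ) (R : List (List Bool × ℕ)) : List ℕ :=
  (cand (n, (R.map fun x => x.1).reverse)).map fun c => (R.getD (R.length - c) ([], 0)).2

/-- all candidates -/
def candS (cand : ℕ × List (List Bool) → List ℕ) (n : ℕ) (xs : List (List Bool)) : List ℕ :=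
  xs.length :: ((pass f C K xs).map (fun q => q.2) ++
    (List.range ((pass f C K xs).length + 1)).flatMap fun j =>
      candQ cand n (inCl f C ((pass f C K xs).drop j) xs))

theorem ins_length (Q : List (α × ℕ)) (x : List Bool × ℕ) (h : Q.length ≤ K + 1) :
    (ins f C K Q x).length ≤ K + 1 := by
  unfold ins
  split
  · exact h
  · rename_i h1
    simp only [Bool.or_eq_true, decide_eq_true_eq, not_or, not_lt] at h1
    rw [List.length_cons]
    omega

theorem fold_length (l : List (List Bool × ℕ)) (Q : List (α × ℕ)) (h : Q.length ≤ K + 1) :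
    (l.foldl (ins f C K) Q).length ≤ K + 1 := by
  induction l generalizing Q with
  | nil => exact h
  | cons x l ih => exact ih _ (ins_length f C K Q x h)

theorem pass_length (xs : List (List Bool)) : (pass f C K xs).length ≤ K + 1 :=
  fold_length f C K _ _ (by simp)

theorem fold_suffix (l : List (List Bool × ℕ)) (Q : List (α × ℕ)) :
    Q <:+ l.foldl (ins f C K) Q := by
  induction l generalizing Q with
  | nil => exact List.suffix_refl _
  | cons x l ih =>
    rw [List.foldl_cons]
    refine List.IsSuffix.trans ?_ (ih _)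
    unfold ins
    split
    · exact List.suffix_refl _
    · exact List.suffix_cons _ _

theorem fold_inv (G : Set α) (l : List (List Bool × ℕ)) (Q : List (α × ℕ))
    (hG : ∀ x ∈ l, f x.1 ∈ G) (hQ : ∀ q ∈ Q, q.1 ∈ G)
    (hC : ∀ M, M <:+ (Q.map fun q => q.1) → M ≠ [] → C M = false) :
    (∀ q ∈ l.foldl (ins f C K) Q, q.1 ∈ G) ∧
      ∀ M, M <:+ ((l.foldl (ins f C K) Q).map fun q => q.1) → M ≠ [] → C M = false := by
  induction l generalizing Q with
  | nil => exact ⟨hQ, hC⟩
  | cons x l ih =>
    rw [List.foldl_cons]
    refine ih _ (fun y hy => hG y (List.mem_cons_of_mem _ hy)) ?_ ?_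
    · unfold ins
      split
      · exact hQ
      · intro q hq
        rcases List.mem_cons.1 hq with rfl | hq
        · exact hG x List.mem_cons_self
        · exact hQ q hq
    · unfold ins
      split
      · exact hC
      · rename_i h1
        simp only [Bool.or_eq_true, decide_eq_true_eq, not_or, Bool.not_eq_true] at h1
        intro M hM hM0
        rw [List.map_cons] at hM
        rcases List.suffix_cons_iff.1 hM with rfl | hM
        · exact h1.2
        · exact hC M hM hM0

theorem candS_length (cand : ℕ × List (List Bool) → List ℕ) (n q : ℕ)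
    (h : ∀ xs, (cand (n, xs)).length ≤ q) (xs : List (List Bool)) :
    (candS f C K cand n xs).length ≤ 1 + ((K + 1) + (K + 2) * q) := by
  unfold candS
  rw [List.length_cons, List.length_append, List.length_map, List.length_flatMap]
  have h1 := pass_length f C K xs
  have h2 : ((List.range ((pass f C K xs).length + 1)).map fun j =>
      (candQ cand n (inCl f C ((pass f C K xs).drop j) xs)).length).sum ≤
      ((pass f C K xs).length + 1) * q := by
    have h3 := List.sum_le_card_nsmul ((List.range ((pass f C K xs).length + 1)).map fun j =>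
      (candQ cand n (inCl f C ((pass f C K xs).drop j) xs)).length) q (by
        intro x hx
        obtain ⟨j, -, rfl⟩ := List.mem_map.1 hx
        unfold candQ
        rw [List.length_map]
        exact h _)
    rw [List.length_map, List.length_range, smul_eq_mul] at h3
    exact h3
  have h3 : ((pass f C K xs).length + 1) * q ≤ (K + 2) * q := Nat.mul_le_mul_right _ (by omega)
  omega

end

theorem candS_mem {α : Type} {f : List Bool → α} {C : List α → Bool} {G : Set α} {K n : ℕ}
    {B D : Set (List Bool)} {cand : ℕ × List (List Bool) → List ℕ}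
    (hsound : ∀ y L, (∀ z ∈ L, z ∈ G) → C (y :: L) = true → y ∈ G)
    (hchain : ∀ L : List α, (∀ z ∈ L, z ∈ G) → (∀ M, M <:+ L → M ≠ [] → C M = false) →
      L.length ≤ K)
    (hB : ∀ x : List Bool, x.length = n → (x ∈ B ↔ f x ∈ G))
    (hD : ∀ ys zs : List (List Bool), (∀ x ∈ ys ++ zs, x.length = n) → (∀ x ∈ ys, x ∈ D) →
      (∀ x ∈ zs, x ∉ D) → ys.length ∈ cand (n, ys ++ zs))
    (ys zs : List (List Bool)) (hlen : ∀ x ∈ ys ++ zs, x.length = n)
    (hy : ∀ x ∈ ys, x ∈ B \ D) (hz : ∀ x ∈ zs, x ∉ B \ D) :
    ys.length ∈ candS f C K cand n (ys ++ zs) := by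
  unfold candS
  rcases zs with _ | ⟨z, zs⟩
  · rw [List.append_nil]
    exact List.mem_cons_self
  refine List.mem_cons_of_mem _ ?_
  rw [List.mem_append]
  obtain ⟨Q, hQ⟩ : ∃ Q, Q = ys.zipIdx.foldl (ins f C K) [] := ⟨_, rfl⟩
  have hzip : (ys ++ z :: zs).zipIdx =
      ys.zipIdx ++ (z, ys.length) :: zs.zipIdx (ys.length + 1) := by
    rw [List.zipIdx_append, List.zipIdx_cons, Nat.zero_add]
  have hP : pass f C K (ys ++ z :: zs) =
      (zs.zipIdx (ys.length + 1)).foldl (ins f C K) (ins f C K Q (z, ys.length)) := by
    unfold pass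
    rw [hzip, List.foldl_append, List.foldl_cons, ← hQ]
  have hyB : ∀ x ∈ ys, x.length = n ∧ f x ∈ G := by
    intro x hx
    have h1 := hlen x (List.mem_append_left _ hx)
    exact ⟨h1, (hB x h1).1 (hy x hx).1⟩
  obtain ⟨hQG, hQC⟩ : (∀ q ∈ Q, q.1 ∈ G) ∧
      ∀ M, M <:+ (Q.map fun q => q.1) → M ≠ [] → C M = false := by
    rw [hQ]
    refine fold_inv f C K G _ _ ?_ (by simp) ?_
    · rintro ⟨x, i⟩ hx
      exact (hyB x (List.fst_mem_of_mem_zipIdx hx)).2
    · intro M hM hM0
      rw [List.map_nil, List.suffix_nil] at hM
      exact absurd hM hM0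
  have hQG' : ∀ w ∈ Q.map fun q => q.1, w ∈ G := by
    intro w hw
    obtain ⟨q, hq, rfl⟩ := List.mem_map.1 hw
    exact hQG q hq
  have hQK : Q.length ≤ K := by
    have h1 := hchain _ hQG' hQC
    rwa [List.length_map] at h1
  cases hc : C (f z :: Q.map fun q => q.1) with
  | false =>
    left
    have h1 : ins f C K Q (z, ys.length) = (f z, ys.length) :: Q := by
      unfold ins
      rw [if_neg]
      simp only [Bool.or_eq_true, decide_eq_true_eq, not_or, not_lt, Bool.not_eq_true]
      exact ⟨hQK, hc⟩
    rw [hP, h1]
    have h2 := fold_suffix f C K (zs.zipIdx (ys.length + 1)) ((f z, ys.length) :: Q)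
    exact List.mem_map.2 ⟨(f z, ys.length), h2.subset List.mem_cons_self, rfl⟩
  | true =>
    right
    have h1 : ins f C K Q (z, ys.length) = Q := by
      unfold ins
      rw [if_pos]
      rw [hc, Bool.or_true]
    rw [h1] at hP
    have h2 : Q <:+ pass f C K (ys ++ z :: zs) := by
      rw [hP]
      exact fold_suffix f C K _ _
    have h3 := List.suffix_iff_eq_drop.1 h2
    rw [List.mem_flatMap]
    refine ⟨(pass f C K (ys ++ z :: zs)).length - Q.length, ?_, ?_⟩
    · rw [List.mem_range]
      omega
    rw [← h3]
    -- the strings that pass the test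
    obtain ⟨R1, hR1⟩ : ∃ R1, R1 = ys.zipIdx.filter fun x => C (f x.1 :: Q.map fun q => q.1) :=
      ⟨_, rfl⟩
    obtain ⟨R2, hR2⟩ : ∃ R2, R2 = (zs.zipIdx (ys.length + 1)).filter
      fun x => C (f x.1 :: Q.map fun q => q.1) := ⟨_, rfl⟩
    have hR : inCl f C Q (ys ++ z :: zs) = R1 ++ (z, ys.length) :: R2 := by
      unfold inCl
      rw [hzip, List.filter_append, List.filter_cons, if_pos hc, hR1, hR2]
    rw [hR]
    unfold candQ
    have hD1 : ∀ x ∈ R1.map fun x => x.1, x.length = n ∧ x ∉ D := by
      intro x hx
      obtain ⟨⟨y, i⟩, hx', rfl⟩ := List.mem_map.1 hx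
      rw [hR1, List.mem_filter] at hx'
      have h4 := List.fst_mem_of_mem_zipIdx hx'.1
      exact ⟨(hyB y h4).1, (hy y h4).2⟩
    have hD2 : ∀ x ∈ z :: R2.map fun x => x.1, x.length = n ∧ x ∈ D := by
      intro x hx
      have h4 : x ∈ z :: zs ∧ C (f x :: Q.map fun q => q.1) = true := by
        rcases List.mem_cons.1 hx with rfl | hx
        · exact ⟨List.mem_cons_self, hc⟩
        · obtain ⟨⟨y, i⟩, hx', rfl⟩ := List.mem_map.1 hx
          rw [hR2, List.mem_filter] at hx'
          exact ⟨List.mem_cons_of_mem _ (List.fst_mem_of_mem_zipIdx hx'.1), hx'.2⟩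
      have h5 := hlen x (List.mem_append_right _ h4.1)
      have h6 : x ∈ B := (hB x h5).2 (hsound _ _ hQG' h4.2)
      refine ⟨h5, ?_⟩
      by_contra h7
      exact hz x h4.1 ⟨h6, h7⟩
    have hrev : ((R1 ++ (z, ys.length) :: R2).map fun x => x.1).reverse =
        (z :: R2.map fun x => x.1).reverse ++ (R1.map fun x => x.1).reverse := by
      rw [List.map_append, List.map_cons, List.reverse_append]
    have h8 := hD (z :: R2.map fun x => x.1).reverse (R1.map fun x => x.1).reverse (by
      intro x hx
      rcases List.mem_append.1 hx with hx | hx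
      · exact (hD2 x (List.mem_reverse.1 hx)).1
      · exact (hD1 x (List.mem_reverse.1 hx)).1)
      (fun x hx => (hD2 x (List.mem_reverse.1 hx)).2)
      (fun x hx => (hD1 x (List.mem_reverse.1 hx)).2)
    rw [← hrev, List.length_reverse, List.length_cons, List.length_map] at h8
    refine List.mem_map.2 ⟨_, h8, ?_⟩
    have h9 : (R1 ++ (z, ys.length) :: R2).length - (R2.length + 1) = R1.length := by
      rw [List.length_append, List.length_cons]
      omega
    rw [h9, List.getD_eq_getElem?_getD, List.getElem?_append_right le_rfl, Nat.sub_self]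
    rfl

end Pool.Agent.W_d799b0_g54
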