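import Pool.Agent.W_d799b0_g54.Cand

/-!
# Candidates for the boundary: polynomial time, and nested differences
-/

set_option autoImplicit false
set_option linter.unusedSectionVars false

namespace Pool.Agent.W_d799b0_g54

open Pool.Agent.PolyTime Function

section

variable {α γ : Type} [ToD α] [ToD γ] {f : List Bool → α} {C : List α → Bool}

private theorem CandP_test (hf : PF f) (hC : PF C) :
    PF (fun x : List (α × ℕ) × (List Bool × ℕ) => C (f x.2.1 :: x.1.map fun q => q.1)) := by
  have h1 : PF (fun x : List (α × ℕ) × (List Bool × ℕ) => x.1.map fun q => q.1) :=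
    PF.map (g := fun _ (q : α × ℕ) => q.1) PF.snd'.fst PF.fst'
  have h2 : PF (fun x : List (α × ℕ) × (List Bool × ℕ) => f x.2.1) := hf.comp PF.snd'.fst
  exact hC.comp (h2.cons h1)

private theorem CandP_ins (hf : PF f) (hC : PF C) :
    PF (fun x : ℕ × (List (α × ℕ) × (List Bool × ℕ)) => ins f C x.1 x.2.1 x.2.2) := by
  unfold ins
  have h1 : PF (fun x : ℕ × (List (α × ℕ) × (List Bool × ℕ)) =>
      C (f x.2.2.1 :: x.2.1.map fun q => q.1)) := (CandP_test hf hC).comp PF.snd'
  exact PF.ite (PF.or (PF.lt PF.fst' PF.snd'.fst.length) h1) PF.snd'.fst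
    (((hf.comp PF.snd'.snd.fst).pair PF.snd'.snd.snd).cons PF.snd'.fst)

private theorem CandP_zip_fst {l : List (List Bool)} {x : List Bool × ℕ} (h : x ∈ l.zipIdx) :
    sz x.1 + sz x.2 < sz l.zipIdx := by
  have h1 := sz_mem h
  obtain ⟨a, i⟩ := x
  rw [sz_pair] at h1
  simp only
  omega

theorem PF.pass (hf : PF f) (hC : PF C) {K : γ → ℕ} {xs : γ → List (List Bool)} (hK : PF K)
    (hx : PF xs) : PF (fun c => W_d799b0_g54.pass f C (K c) (xs c)) := by
  obtain ⟨F, hF⟩ := hf.bound
  obtain ⟨X, hX⟩ := hx.zipIdx.bound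
  have h1 : PF (fun x : (γ × List (α × ℕ)) × (List Bool × ℕ) => ins f C (K x.1.1) x.1.2 x.2) :=
    (CandP_ins hf hC).comp ((hK.comp PF.fst'.fst).pair (PF.fst'.snd.pair PF.snd'))
  refine W_d799b0_h82.pf_foldl_add (f := fun c Q x => ins f C (K c) Q x) (b := fun _ => [])
    (l := fun c => (xs c).zipIdx) h1 (PF.const _) hx.zipIdx (F.comp X + X + 2) ?_
  intro c Q x hmem
  have h2 := CandP_zip_fst hmem
  have h3 := hX c
  have h4 : sz (f x.1) ≤ F.eval (X.eval (sz c)) :=
    (hF x.1).trans (eval_mono F (by omega))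
  simp only [Polynomial.eval_add, Polynomial.eval_comp, Polynomial.eval_ofNat]
  unfold ins
  split
  · omega
  · rw [sz_cons, sz_pair]
    omega

theorem PF.inCl (hf : PF f) (hC : PF C) {Q : γ → List (α × ℕ)} {xs : γ → List (List Bool)}
    (hQ : PF Q) (hx : PF xs) : PF (fun c => W_d799b0_g54.inCl f C (Q c) (xs c)) := by
  have h1 : PF (fun x : γ × (List Bool × ℕ) => C (f x.2.1 :: (Q x.1).map fun q => q.1)) :=
    (CandP_test hf hC).comp ((hQ.comp PF.fst').pair PF.snd')
  exact PF.filter (g := fun c x => C (f x.1 :: (Q c).map fun q => q.1)) h1 hx.zipIdx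

theorem PF.candQ {cand : ℕ × List (List Bool) → List ℕ} (hc : PF cand) {n : γ → ℕ}
    {R : γ → List (List Bool × ℕ)} (hn : PF n) (hR : PF R) :
    PF (fun c => W_d799b0_g54.candQ cand (n c) (R c)) := by
  have h1 : PF (fun c => (R c).map fun x => x.1) :=
    PF.map (g := fun _ (x : List Bool × ℕ) => x.1) PF.snd'.fst hR
  have h2 : PF (fun c => cand (n c, ((R c).map fun x => x.1).reverse)) :=
    hc.comp (hn.pair h1.reverse)
  have h3 : PF (fun x : γ × ℕ => ((R x.1).getD ((R x.1).length - x.2) ([], 0)).2) := by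
    have h4 : PF (fun x : γ × ℕ => R x.1) := hR.comp PF.fst'
    exact (W_d799b0_h82.pf_getD (h4.length.sub PF.snd') (PF.const ([], 0)) h4).snd
  exact PF.map (g := fun c k => ((R c).getD ((R c).length - k) ([], 0)).2) h3 h2

theorem PF.candS (hf : PF f) (hC : PF C) {cand : ℕ × List (List Bool) → List ℕ} (hc : PF cand)
    {K n : γ → ℕ} {xs : γ → List (List Bool)} (hK : PF K) (hn : PF n) (hx : PF xs) :
    PF (fun c => W_d799b0_g54.candS f C (K c) cand (n c) (xs c)) := by
  have hP : PF (fun c => W_d799b0_g54.pass f C (K c) (xs c)) := PF.pass hf hC hK hx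
  have h1 : PF (fun c => (W_d799b0_g54.pass f C (K c) (xs c)).map fun q => q.2) :=
    PF.map (g := fun _ (q : α × ℕ) => q.2) PF.snd'.snd hP
  have hP1 : PF (fun x : γ × ℕ => W_d799b0_g54.pass f C (K x.1) (xs x.1)) := hP.comp PF.fst'
  have h2 : PF (fun x : γ × ℕ => W_d799b0_g54.inCl f C
      ((W_d799b0_g54.pass f C (K x.1) (xs x.1)).drop x.2) (xs x.1)) :=
    PF.inCl hf hC (W_d799b0_h82.pf_drop PF.snd' hP1) (hx.comp PF.fst')
  have h3 : PF (fun x : γ × ℕ => W_d799b0_g54.candQ cand (n x.1) (W_d799b0_g54.inCl f C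
      ((W_d799b0_g54.pass f C (K x.1) (xs x.1)).drop x.2) (xs x.1))) :=
    PF.candQ hc (hn.comp PF.fst') h2
  have h4 := PF.flatMap (g := fun c j => W_d799b0_g54.candQ cand (n c) (W_d799b0_g54.inCl f C
      ((W_d799b0_g54.pass f C (K c) (xs c)).drop j) (xs c))) h3 hP.length.succ.range
  exact hx.length.cons (h1.append h4)

end

theorem candFor_empty : CandFor ∅ := by
  refine ⟨fun _ => [0], 1, PF.const _, ?_, ?_⟩
  · intro n xs
    simp
  · intro n ys zs _ hy _
    have h1 : ys = [] := by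
      rcases ys with _ | ⟨y, ys⟩
      · rfl
      · exact absurd (hy y List.mem_cons_self) (Set.notMem_empty _)
    rw [h1]
    simp

theorem candFor_diff {B D : Set (List Bool)} (hB : SC B) (hD : CandFor D) : CandFor (B \ D) := by
  obtain ⟨α, iα, f, C, G, p, hf, hC, hsound, hchain, hB⟩ := hB
  obtain ⟨cand, Q, hc, hlen, hcand⟩ := hD
  refine ⟨fun x => candS f C (p.eval x.1) cand x.1 x.2, 1 + ((p + 1) + (p + 2) * Q), ?_, ?_, ?_⟩
  · exact PF.candS hf hC hc (PF.evalPoly p PF.fst') PF.fst' PF.snd'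
  · intro n xs
    have h1 := candS_length f C (p.eval n) cand n (Q.eval n) (hlen n) xs
    simpa using h1
  · intro n ys zs h1 h2 h3
    exact candS_mem (G := G n) (hsound n) (hchain n) (fun x hx => by rw [hB x, hx])
      (hcand n) ys zs h1 h2 h3

/-- **Nested differences of languages decided by sets with short chains have few candidates.** -/
theorem candFor_nestedDiff (Bs : List (Set (List Bool))) (h : ∀ B ∈ Bs, SC B) :
    CandFor (nestedDiff Bs) := by
  induction Bs with
  | nil => exact candFor_empty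
  | cons B Bs ih =>
    exact candFor_diff (h B List.mem_cons_self) (ih fun D hD => h D (List.mem_cons_of_mem _ hD))

end Pool.Agent.W_d799b0_g54
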