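import Pool.Agent.W_d799b0_h82.Defs

/-!
# Reductions to membership in nonuniform permutation groups: definitions
-/

set_option autoImplicit false

open Turing Computability

namespace Pool.Agent.W_d799b0_g54

open Pool.Agent.W_d799b0_h82

/-- The permutation of the set of all strings that is given by a list of pairs of strings: the
product of the transpositions `(y z)` for the pairs `(y, z)` of the list. -/
noncomputable def perm (L : List (List Bool × List Bool)) : Equiv.Perm (List Bool) :=
  (L.map fun p => Equiv.swap p.1 p.2).prod

/-- A list of pairs of strings is written down as the list of the strings of the first pair, of the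
second pair, and so on. -/
def encP (L : List (List Bool × List Bool)) : List (Option Bool) :=
  encL (L.flatMap fun p => [p.1, p.2])

/-- `B` is decided by membership in permutation groups: in polynomial time one computes from `x` a
permutation of the set of all strings (a product of transpositions), and `x` is in `B` iff this
permutation belongs to the group `G n` for `n = |x|`. There is no condition on how the groups are
found; they move only polynomially many strings. -/
def GroupTest (B : Set (List Bool)) : Prop :=
  ∃ (f : List Bool → List (List Bool × List Bool))
    (G : ℕ → Subgroup (Equiv.Perm (List Bool))) (p : Polynomial ℕ),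
    Nonempty (TM2ComputableInPolyTime (fun x : List Bool => x) encP f) ∧
    (∀ n, {y | ∃ g ∈ G n, g y ≠ y}.Finite ∧ {y | ∃ g ∈ G n, g y ≠ y}.ncard ≤ p.eval n) ∧
    ∀ x, x ∈ B ↔ perm (f x) ∈ G x.length

/-- `B` is decided by membership in sets `G n` with short chains: there is a polynomial-time test
`C` for lists of strings such that if all strings in `L` are in `G n` and `y :: L` passes the test,
then `y` is in `G n`, and such that a list of strings in `G n` no final segment of which passes the
test has polynomial length. There is no condition on how the sets `G n` are found. In polynomial time
one computes from `x` a string, and `x` is in `B` iff this string belongs to `G n` for `n = |x|`. -/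
def ChainTest (B : Set (List Bool)) : Prop :=
  ∃ (f : List Bool → List Bool) (C : List (List Bool) → Bool) (G : ℕ → Set (List Bool))
    (p : Polynomial ℕ),
    Nonempty (TM2ComputableInPolyTime (fun x : List Bool => x) (fun y : List Bool => y) f) ∧
    Nonempty (TM2ComputableInPolyTime encL encodeBool C) ∧
    (∀ n y L, (∀ z ∈ L, z ∈ G n) → C (y :: L) = true → y ∈ G n) ∧
    (∀ n L, (∀ z ∈ L, z ∈ G n) → (∀ M, M <:+ L → M ≠ [] → C M = false) →
      L.length ≤ p.eval n) ∧
    ∀ x, x ∈ B ↔ f x ∈ G x.length

/-- The nested difference `B₁ \ (B₂ \ (B₃ \ ...))` of a list of languages. -/
def nestedDiff : List (Set (List Bool)) → Set (List Bool)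
  | [] => ∅
  | B :: Bs => B \ nestedDiff Bs

end Pool.Agent.W_d799b0_g54
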