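import Pool.Agent.W_d799b0_h82.Cor
import Pool.Agent.W_d799b0_g54.Defs

/-!
# The encodings of lists of strings and of lists of pairs of strings
-/

set_option autoImplicit false

open Turing Computability

namespace Pool.Agent.W_d799b0_g54

open Pool.Agent.PolyTime Function
open Pool.Agent.W_d799b0_h82

/-- letters as numbers -/
private def Enc_cd : Option Bool → ℕ
  | none => 0
  | some false => 1
  | some true => 2

/-- numbers as letters -/
private def Enc_dec : ℕ → Option Bool
  | 0 => none
  | 1 => some false
  | _ => some true

theorem treeL : Poly en encL (fun L : List (List Bool) => L) := by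
  have h2 : PF (fun L : List (List Bool) => L.flatMap fun y =>
      (0 : ℕ) :: y.map fun b => if b then 2 else 1) := by
    fun_prop
  have h3 : ∀ L : List (List Bool), (encL L).map Enc_cd = L.flatMap fun y =>
      (0 : ℕ) :: y.map fun b => if b then 2 else 1 := by
    intro L
    unfold encL
    rw [List.map_flatMap]
    congr 1
    funext y
    rw [List.map_cons, List.map_map]
    congr 1
    apply List.map_congr_left
    intro b _
    cases b <;> rfl
  have h4 : Poly en (fun w : List (Option Bool) => en (w.map Enc_cd)) encL := by
    refine h2.restrict id (fun _ => rfl) ?_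
    intro L
    rw [h3]
    rfl
  have h5 : Poly (fun w : List (Option Bool) => en (w.map Enc_cd))
      (fun w : List (Option Bool) => w) (fun w => w) :=
    Poly.rawOfNat 2 Enc_dec Enc_cd (by
      intro a
      rcases a with _ | b
      · simp [Enc_cd]
      · cases b <;> simp [Enc_cd]) (by
      intro a
      rcases a with _ | b
      · rfl
      · cases b <;> rfl)
  exact (Poly.comp h4 h5).restrict id (fun _ => rfl) (fun _ => rfl)

/-- the strings of the pairs -/
private def Enc_flat (L : List (List Bool × List Bool)) : List (List Bool) :=
  L.flatMap fun p => [p.1, p.2]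

/-- make pairs, from the right; state `(waiting string, pairs)` -/
private def Enc_step (a : List Bool) (s : List (List Bool) × List (List Bool × List Bool)) :
    List (List Bool) × List (List Bool × List Bool) :=
  if s.1.isEmpty then ([a], s.2) else ([], (a, s.1.headD []) :: s.2)

private theorem Enc_pairs (L : List (List Bool × List Bool)) :
    (Enc_flat L).foldr Enc_step ([], []) = ([], L) := by
  induction L with
  | nil => rfl
  | cons p L ih =>
    have h1 : Enc_flat (p :: L) = p.1 :: p.2 :: Enc_flat L := rfl
    rw [h1, List.foldr_cons, List.foldr_cons, ih]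
    rfl

private theorem Enc_pf : PF (fun l : List (List Bool) => (l.foldr Enc_step ([], [])).2) := by
  refine PF.snd ?_
  refine pf_foldr_add (γ := List (List Bool)) (f := fun _ a s => Enc_step a s)
    (b := fun _ => ([], [])) (l := fun l => l) ?_ (PF.const _) PF.id' (Polynomial.X + 10) ?_
  · unfold Enc_step
    fun_prop
  · intro c a ha s
    have h1 := sz_mem ha
    obtain ⟨s1, s2⟩ := s
    rw [Polynomial.eval_add, Polynomial.eval_X, Polynomial.eval_ofNat]
    cases s1 with
    | nil =>
      simp only [Enc_step, List.isEmpty_nil, if_true, sz_pair, sz_cons, sz_nil]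
      omega
    | cons b s1 =>
      simp only [Enc_step, List.isEmpty_cons, Bool.false_eq_true, if_false, List.headD_cons,
        sz_pair, sz_cons, sz_nil]
      omega

theorem pf_of_encP {f : List Bool → List (List Bool × List Bool)}
    (h : Nonempty (TM2ComputableInPolyTime (fun x : List Bool => x) encP f)) : PF f := by
  have h1 : Nonempty (TM2ComputableInPolyTime (fun x : List Bool => x) encL
      (fun x => Enc_flat (f x))) := Poly.restrict h id (fun _ => rfl) (fun _ => rfl)
  have h2 : PF (fun x => Enc_flat (f x)) := pf_of_encL h1
  have h3 := PF.comp Enc_pf h2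
  refine h3.cast (fun x => ?_)
  rw [Enc_pairs]

theorem toEncP {f : List Bool → List (List Bool × List Bool)} (h : PF f) :
    Nonempty (TM2ComputableInPolyTime (fun x : List Bool => x) encP f) := by
  have h1 : PF (fun x => Enc_flat (f x)) := by
    unfold Enc_flat
    fun_prop
  have h2 := Poly.comp strTree (Poly.comp h1 treeL)
  exact Poly.restrict h2 id (fun _ => rfl) (fun _ => rfl)

end Pool.Agent.W_d799b0_g54
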