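import Pool.Agent.W_d799b0_g54.LeftA
import Pool.Agent.W_d799b0_h82.Pad
import Pool.Agent.W_d799b0_h82.Conv
import Pool.Agent.W_d799b0_h42.AlgP3

/-!
# The search runs in polynomial time
-/

set_option autoImplicit false
set_option linter.unusedSectionVars false

open Turing Computability

namespace Pool.Agent.W_d799b0_g54

open Pool.Agent.PolyTime Function
open Pool.Agent.W_d799b0_h82 (InNP InP val extL Vof pf_Vof pf_of_verifier witness_iff raw_of_pf)

section

variable {γ : Type} [ToD γ]

theorem PF.bal {x : γ → List Bool} (hx : PF x) : PF (fun c => W_d799b0_g54.bal (x c)) :=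
  PF.map (g := fun _ (b : Bool) => (b, !b)) (PF.snd'.pair PF.snd'.not) hx

theorem PF.inst {x u : γ → List Bool} (hx : PF x) (hu : PF u) :
    PF (fun c => W_d799b0_g54.inst (x c) (u c)) :=
  W_d799b0_h82.pf_en (f := fun c => (W_d799b0_g54.bal (x c), W_d799b0_g54.bal (u c)))
    ((PF.bal hx).pair (PF.bal hu))

theorem PF.insts {N : γ → ℕ} {x : γ → List Bool} {L : γ → List (List Bool)} (hN : PF N)
    (hx : PF x) (hL : PF L) : PF (fun c => W_d799b0_g54.insts (N c) (x c) (L c)) := by
  have h1 : PF (fun y : γ × List Bool => W_d799b0_g54.inst (x y.1)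
      (y.2 ++ List.replicate (N y.1 - y.2.length) false)) :=
    PF.inst (hx.comp PF.fst') (PF.append PF.snd'
      (((hN.comp PF.fst').sub PF.snd'.length).replicate false))
  exact PF.map (g := fun c v => W_d799b0_g54.inst (x c)
    (v ++ List.replicate (N c - v.length) false)) h1 hL

theorem PF.keep {a : γ → List ℕ} {L : γ → List (List Bool)} (ha : PF a) (hL : PF L) :
    PF (fun c => W_d799b0_g54.keep (a c) (L c)) := by
  have h1 : PF (fun y : γ × (List Bool × ℕ) => (a y.1).any fun i => decide (i = y.2.2 + 1)) :=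
    PF.any (g := fun (y : γ × (List Bool × ℕ)) i => decide (i = y.2.2 + 1))
      (PF.natEq PF.snd' PF.fst'.snd.snd.succ) (ha.comp PF.fst')
  have h2 := PF.filter (g := fun c (p : List Bool × ℕ) =>
    (a c).any fun i => decide (i = p.2 + 1)) h1 hL.zipIdx
  exact PF.map (g := fun _ (p : List Bool × ℕ) => p.1) PF.snd'.fst h2

theorem PF.stepL {cand : ℕ × List (List Bool) → List ℕ} (hc : PF cand) {N : γ → ℕ}
    {x : γ → List Bool} {L : γ → List (List Bool)} (hN : PF N) (hx : PF x) (hL : PF L) :
    PF (fun c => W_d799b0_g54.stepL cand (N c) (x c) (L c)) := by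
  have h1 : PF (fun c => extL (L c)) := PF.extL hL
  have h2 : PF (fun c => (6 * (x c).length + 6 * N c + 3)) :=
    ((((PF.const 6).mul hx.length).add ((PF.const 6).mul hN)).add (PF.const 3))
  exact PF.keep (hc.comp (h2.pair (PF.insts hN hx h1))) h1

end

theorem stepL_size {cand : ℕ × List (List Bool) → List ℕ} {Q : Polynomial ℕ}
    (hQ : ∀ n xs, (cand (n, xs)).length ≤ Q.eval n) (N : ℕ) (x : List Bool) (i : ℕ) :
    ((stepL cand N x)^[i] [[]]).length ≤ Q.eval (6 * x.length + 6 * N + 3) + 1 ∧
      ∀ v ∈ (stepL cand N x)^[i] [[]], v.length = i := by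
  induction i with
  | zero => simp
  | succ i ih =>
    rw [iterate_succ_apply']
    constructor
    · unfold stepL
      exact (keep_length _ _).trans ((hQ _ _).trans (Nat.le_succ _))
    · intro v hv
      unfold stepL at hv
      exact extL_length_mem _ i ih.2 v ((keep_sublist _ _).subset hv)

theorem pf_runL {cand : ℕ × List (List Bool) → List ℕ} {Q : Polynomial ℕ} (hc : PF cand)
    (hQ : ∀ n xs, (cand (n, xs)).length ≤ Q.eval n) {W : List Bool → List Bool → Bool}
    (hW : PF (fun q : List Bool × List Bool => W q.1 q.2)) (p : Polynomial ℕ) :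
    PF (fun x : List Bool => runL cand W (p.eval x.length + 1) x) := by
  have hN : PF (fun x : List Bool => p.eval x.length + 1) :=
    (PF.evalPoly p PF.id'.length).succ
  have hstep : PF (fun y : List Bool × List (List Bool) =>
      stepL cand (p.eval y.1.length + 1) y.1 y.2) :=
    PF.stepL hc (hN.comp PF.fst') PF.fst' PF.snd'
  have hit : PF (fun x : List Bool => (stepL cand (p.eval x.length + 1) x)^[p.eval x.length + 1]
      [[]]) := by
    refine PF.iter (f := fun x L => stepL cand (p.eval x.length + 1) x L) hstep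
      (PF.const [[]]) hN ((Q.comp (6 * Polynomial.X + 6 * (p + 1) + 3) + 1) *
        (4 * (p + 1) + 2) + 1) ?_
    intro x i hi
    obtain ⟨h1, h2⟩ := stepL_size hQ (p.eval x.length + 1) x i
    have h3 := sz_le_length ((stepL cand (p.eval x.length + 1) x)^[i] [[]])
      (4 * (p.eval x.length + 1) + 1) (fun v hv => by
        have h4 := sz_bits_le v
        have h5 := h2 v hv
        omega)
    refine h3.trans ?_
    have h6 : x.length ≤ sz x := length_le_sz x
    have h7 : p.eval x.length ≤ p.eval (sz x) := eval_mono p h6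
    have h8 : Q.eval (6 * x.length + 6 * (p.eval x.length + 1) + 3) ≤
        Q.eval (6 * sz x + 6 * (p.eval (sz x) + 1) + 3) := eval_mono Q (by omega)
    have h9 : ((Q.comp (6 * Polynomial.X + 6 * (p + 1) + 3) + 1) * (4 * (p + 1) + 2) + 1 :
        Polynomial ℕ).eval (sz x) = (Q.eval (6 * sz x + 6 * (p.eval (sz x) + 1) + 3) + 1) *
          (4 * (p.eval (sz x) + 1) + 2) + 1 := by
      simp
    rw [h9]
    refine Nat.succ_le_succ (Nat.mul_le_mul (h1.trans (Nat.succ_le_succ h8)) ?_)
    omega
  have h11 : PF (fun y : List Bool × List Bool =>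
      decide (y.2.length = p.eval y.1.length + 1) && W y.1 y.2) :=
    PF.and (PF.natEq PF.snd'.length (hN.comp PF.fst')) hW
  exact PF.any (g := fun x v => decide (v.length = p.eval x.length + 1) && W x v) h11 hit

/-- **If for every language in NP there are few candidates for the boundary, then P = NP.** -/
theorem inP_of_candFor (h : ∀ A : Set (List Bool), InNP A → CandFor A) (A : Set (List Bool))
    (hA : InNP A) : InP A := by
  obtain ⟨p, V, hV, hA⟩ := hA
  have hW : PF (fun q : List Bool × List Bool => Vof p V q.1 q.2) :=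
    pf_Vof p (pf_of_verifier hV)
  obtain ⟨L, hL, hLT⟩ := exists_left hW
  obtain ⟨cand, Q, hc, hQ, hcand⟩ := h L hL
  refine ⟨fun x => runL cand (Vof p V) (p.eval x.length + 1) x,
    raw_of_pf (pf_runL hc hQ hW p), fun x => ?_⟩
  rw [hA x, ← witness_iff p V x _ le_rfl]
  exact ⟨fun hB => runL_complete hcand hLT hB, fun hr => runL_sound hr⟩

end Pool.Agent.W_d799b0_g54
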