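import Pool.Agent.W_d799b0_g54.SiftA
import Pool.Agent.W_d799b0_h82.PFunL

/-!
# Sifting runs in polynomial time
-/

set_option autoImplicit false
set_option linter.unusedSectionVars false

namespace Pool.Agent.W_d799b0_g54

open Pool.Agent.PolyTime Function

/-! ### Sizes -/

/-- all strings of the table have size at most `m` -/
def Bd (m : ℕ) (w : PL) : Prop := ∀ p ∈ w, sz p.1 ≤ m ∧ sz p.2 ≤ m

theorem app_size (m : ℕ) (L : PL) (hL : Bd m L) (u : List Bool) (hu : sz u ≤ m) :
    sz (app L u) ≤ m := by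
  unfold app
  induction L with
  | nil => exact hu
  | cons p L ih =>
    have h1 := ih fun q hq => hL q (List.mem_cons_of_mem _ hq)
    have h2 := hL p List.mem_cons_self
    rw [List.foldr_cons]
    split
    · exact h2.2
    · split
      · exact h2.1
      · exact h1

theorem rlook_size (m : ℕ) (g : PL) (hg : Bd m g) (v : List Bool) (hv : sz v ≤ m) :
    sz (rlook g v) ≤ m := by
  unfold rlook
  have h1 : ∀ x ∈ (g.filter fun p => p.2 == v).map fun p => p.1, sz x ≤ m := by
    intro x hx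
    obtain ⟨p, hp, rfl⟩ := List.mem_map.1 hx
    exact (hg p (List.mem_filter.1 hp).1).1
  generalize (g.filter fun p => p.2 == v).map (fun p => p.1) = l at h1
  cases l with
  | nil => exact hv
  | cons a l => exact h1 a List.mem_cons_self

theorem same_head_bd (m : ℕ) (T : List PL) (hT : ∀ g ∈ T, Bd m g) (w : PL) :
    Bd m ((same T w).headD []) := by
  have h1 : ∀ g ∈ same T w, Bd m g := fun g hg => hT g (List.mem_filter.1 hg).1
  generalize same T w = l at h1
  cases l with
  | nil =>
    intro p hp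
    exact absurd hp List.not_mem_nil
  | cons a l => exact h1 a List.mem_cons_self

theorem sstep_bd (m : ℕ) (T : List PL) (hT : ∀ g ∈ T, Bd m g) (w : PL) (hw : Bd m w) :
    (sstep T w).length = w.length ∧ Bd m (sstep T w) := by
  unfold sstep
  split
  · exact ⟨rfl, hw⟩
  · unfold quo
    refine ⟨List.length_map _, ?_⟩
    intro q hq
    obtain ⟨p, hp, rfl⟩ := List.mem_map.1 hq
    exact ⟨(hw p hp).1, rlook_size m _ (same_head_bd m T hT w) _ (hw p hp).2⟩

theorem sift_bd (m : ℕ) (U : List (List Bool)) (T : List PL) (L : PL)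
    (hU : ∀ u ∈ U, sz u ≤ m) (hT : ∀ g ∈ T, Bd m g) (hL : Bd m L) (i : ℕ) :
    ((sstep T)^[i] (nrm U L)).length = U.length ∧ Bd m ((sstep T)^[i] (nrm U L)) := by
  induction i with
  | zero =>
    rw [iterate_zero, id_eq]
    unfold nrm
    refine ⟨List.length_map _, ?_⟩
    intro q hq
    obtain ⟨u, hu, rfl⟩ := List.mem_map.1 hq
    exact ⟨hU u hu, app_size m L hL u (hU u hu)⟩
  | succ i ih =>
    rw [iterate_succ_apply']
    have h1 := sstep_bd m T hT _ ih.2
    exact ⟨h1.1.trans ih.1, h1.2⟩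

theorem sz_of_bd (m : ℕ) (w : PL) (hw : Bd m w) : sz w ≤ w.length * (2 * m + 2) + 1 := by
  have h1 := sz_le_length w (2 * m + 1) fun p hp => by
    obtain ⟨h2, h3⟩ := hw p hp
    obtain ⟨a, b⟩ := p
    rw [sz_pair]
    simp only at h2 h3
    omega
  exact h1

theorem bd_of_sz (w : PL) : Bd (sz w) w := by
  intro p hp
  have h1 := sz_mem hp
  obtain ⟨a, b⟩ := p
  rw [sz_pair] at h1
  constructor <;> simp only <;> omega

theorem Bd.mono {m m' : ℕ} {w : PL} (h : Bd m w) (hm : m ≤ m') : Bd m' w :=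
  fun p hp => ⟨(h p hp).1.trans hm, (h p hp).2.trans hm⟩

theorem pnts_size (L : PL) : (pnts L).length + 1 ≤ sz L ∧ ∀ u ∈ pnts L, sz u ≤ sz L := by
  constructor
  · induction L with
    | nil => exact le_refl _
    | cons p L ih =>
      have h1 : pnts (p :: L) = p.1 :: p.2 :: pnts L := rfl
      obtain ⟨a, b⟩ := p
      have h2 := sz_pos a
      have h3 := sz_pos b
      rw [h1, sz_cons, sz_pair, List.length_cons, List.length_cons]
      omega
  · intro u hu
    unfold pnts at hu
    obtain ⟨p, hp, hu⟩ := List.mem_flatMap.1 hu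
    simp only [List.mem_cons, List.not_mem_nil, or_false] at hu
    have h1 := bd_of_sz L p hp
    rcases hu with rfl | rfl
    · exact h1.1
    · exact h1.2

/-- the size invariant of the state -/
def SBd (m n : ℕ) (s : TS) : Prop :=
  s.1.length ≤ n ∧ (∀ u ∈ s.1, sz u ≤ m) ∧ s.2.length ≤ n ∧ ∀ g ∈ s.2, g.length ≤ n ∧ Bd m g

theorem build_bd (m : ℕ) (M : List PL) (hm : ∀ L ∈ M, sz L ≤ m) : SBd m (sz M) (build M) := by
  induction M with
  | nil =>
    refine ⟨?_, ?_, ?_, ?_⟩ <;> simp [build]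
  | cons L M ih =>
    obtain ⟨h1, h2, h3, h4⟩ := ih fun N hN => hm N (List.mem_cons_of_mem _ hN)
    have hb : build (L :: M) = bstep L (build M) := rfl
    obtain ⟨h5, h6⟩ := pnts_size L
    have h7 := hm L List.mem_cons_self
    have hL : Bd m L := (bd_of_sz L).mono h7
    have hU : ∀ u ∈ (build M).1 ++ pnts L, sz u ≤ m := by
      intro u hu
      rcases List.mem_append.1 hu with hu | hu
      · exact h2 u hu
      · exact (h6 u hu).trans h7
    have hlen : ((build M).1 ++ pnts L).length ≤ sz (L :: M) := by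
      rw [List.length_append, sz_cons]
      omega
    rw [hb]
    unfold bstep
    refine ⟨hlen, hU, ?_, ?_⟩
    · simp only
      split
      · rw [sz_cons]
        omega
      · rw [sz_cons, List.length_cons]
        omega
    · intro g hg
      simp only at hg
      have h8 : g ∈ (build M).2 ∨ g = res (build M) L := by
        split at hg
        · exact Or.inl hg
        · rcases List.mem_cons.1 hg with hg | hg
          · exact Or.inr hg
          · exact Or.inl hg
      rcases h8 with h8 | rfl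
      · refine ⟨(h4 g h8).1.trans ?_, (h4 g h8).2⟩
        rw [sz_cons]
        omega
      · have h9 := sift_bd m ((build M).1 ++ pnts L) (build M).2 L hU
          (fun g hg => (h4 g hg).2) hL ((build M).1 ++ pnts L).length
        have hr : res (build M) L = (sstep (build M).2)^[((build M).1 ++ pnts L).length]
            (nrm ((build M).1 ++ pnts L) L) := rfl
        rw [hr]
        exact ⟨by rw [h9.1]; exact hlen, h9.2⟩

theorem sz_of_sbd (m n : ℕ) (s : TS) (h : SBd m n s) :
    sz s ≤ (n * (m + 1) + 1) + (n * (n * (2 * m + 2) + 2) + 1) + 1 := by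
  obtain ⟨h1, h2, h3, h4⟩ := h
  obtain ⟨U, T⟩ := s
  simp only at h1 h2 h3 h4
  rw [sz_pair]
  have h5 := sz_le_length U m h2
  have h6 := sz_le_length T (n * (2 * m + 2) + 1) fun g hg => by
    have h7 := sz_of_bd m g (h4 g hg).2
    have h8 := Nat.mul_le_mul_right (2 * m + 2) (h4 g hg).1
    omega
  have h9 := Nat.mul_le_mul_right (m + 1) h1
  have h10 : T.length * (n * (2 * m + 2) + 1 + 1) ≤ n * (n * (2 * m + 2) + 2) :=
    Nat.mul_le_mul_right (n * (2 * m + 2) + 1 + 1) h3
  omega

/-! ### Polynomial time -/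

section

variable {γ : Type} [ToD γ]

theorem PF.app {L : γ → PL} {u : γ → List Bool} (hL : PF L) (hu : PF u) :
    PF (fun c => W_d799b0_g54.app (L c) (u c)) := by
  obtain ⟨P, hP⟩ := hL.bound
  have h1 : PF (fun x : (γ × (List Bool × List Bool)) × List Bool =>
      if x.2 == x.1.2.1 then x.1.2.2 else if x.2 == x.1.2.2 then x.1.2.1 else x.2) :=
    PF.ite (W_d799b0_h82.pf_beq PF.snd' PF.fst'.snd.fst) PF.fst'.snd.snd
      (PF.ite (W_d799b0_h82.pf_beq PF.snd' PF.fst'.snd.snd) PF.fst'.snd.fst PF.snd')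
  refine W_d799b0_h82.pf_foldr_add
    (f := fun _ p v => if v == p.1 then p.2 else if v == p.2 then p.1 else v) h1 hu hL P ?_
  intro c p hp v
  have h2 := sz_mem hp
  have h3 := hP c
  obtain ⟨a, b⟩ := p
  rw [sz_pair] at h2
  simp only
  split
  · omega
  · split
    · omega
    · omega

theorem PF.rlook {g : γ → PL} {v : γ → List Bool} (hg : PF g) (hv : PF v) :
    PF (fun c => W_d799b0_g54.rlook (g c) (v c)) := by
  have h1 : PF (fun x : γ × (List Bool × List Bool) => x.2.2 == v x.1) :=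
    W_d799b0_h82.pf_beq PF.snd'.snd (hv.comp PF.fst')
  have h2 := PF.filter (g := fun c (p : List Bool × List Bool) => p.2 == v c) h1 hg
  exact W_d799b0_h82.pf_headD hv
    (PF.map (g := fun _ (p : List Bool × List Bool) => p.1) PF.snd'.fst h2)

theorem PF.nrm {U : γ → List (List Bool)} {L : γ → PL} (hU : PF U) (hL : PF L) :
    PF (fun c => W_d799b0_g54.nrm (U c) (L c)) :=
  PF.map (g := fun c u => (u, W_d799b0_g54.app (L c) u))
    (PF.snd'.pair (PF.app (hL.comp PF.fst') PF.snd')) hU

theorem PF.quo {g w : γ → PL} (hg : PF g) (hw : PF w) :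
    PF (fun c => W_d799b0_g54.quo (g c) (w c)) :=
  PF.map (g := fun c (p : List Bool × List Bool) => (p.1, W_d799b0_g54.rlook (g c) p.2))
    (PF.snd'.fst.pair (PF.rlook (hg.comp PF.fst') PF.snd'.snd)) hw

theorem PF.key {w : γ → PL} (hw : PF w) : PF (fun c => W_d799b0_g54.key (w c)) := by
  have h1 : PF (fun x : γ × (List Bool × List Bool) => !(x.2.1 == x.2.2)) :=
    PF.not (W_d799b0_h82.pf_beq PF.snd'.fst PF.snd'.snd)
  exact W_d799b0_h82.pf_take (PF.const 1)
    (PF.filter (g := fun _ (p : List Bool × List Bool) => !(p.1 == p.2)) h1 hw)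

theorem PF.same {T : γ → List PL} {w : γ → PL} (hT : PF T) (hw : PF w) :
    PF (fun c => W_d799b0_g54.same (T c) (w c)) := by
  have h1 : PF (fun x : γ × PL => W_d799b0_g54.key x.2 == W_d799b0_g54.key (w x.1)) :=
    W_d799b0_h82.pf_beq (PF.key PF.snd') (PF.key (hw.comp PF.fst'))
  exact PF.filter (g := fun c g => W_d799b0_g54.key g == W_d799b0_g54.key (w c)) h1 hT

theorem PF.sstep {T : γ → List PL} {w : γ → PL} (hT : PF T) (hw : PF w) :
    PF (fun c => W_d799b0_g54.sstep (T c) (w c)) := by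
  unfold W_d799b0_g54.sstep
  exact PF.ite (PF.or (W_d799b0_h82.pf_isEmpty (PF.key hw))
    (W_d799b0_h82.pf_isEmpty (PF.same hT hw))) hw
    (PF.quo (W_d799b0_h82.pf_headD (PF.const []) (PF.same hT hw)) hw)

theorem PF.sift {U : γ → List (List Bool)} {T : γ → List PL} {L : γ → PL} (hU : PF U)
    (hT : PF T) (hL : PF L) : PF (fun c => W_d799b0_g54.sift (U c) (T c) (L c)) := by
  obtain ⟨P, hP⟩ := hU.bound
  obtain ⟨Q, hQ⟩ := hT.bound
  obtain ⟨R, hR⟩ := hL.bound
  refine PF.iter (f := fun c w => W_d799b0_g54.sstep (T c) w)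
    (PF.sstep (hT.comp PF.fst') PF.snd') (PF.nrm hU hL) hU.length
    (P * (2 * (P + Q + R) + 2) + 1) ?_
  intro c i _
  have h1 := hP c
  have h2 := hQ c
  have h3 := hR c
  have h4 := sift_bd (P.eval (sz c) + Q.eval (sz c) + R.eval (sz c)) (U c) (T c) (L c)
    (fun u hu => by
      have := sz_mem hu
      omega)
    (fun g hg => (bd_of_sz g).mono (by
      have := sz_mem hg
      omega))
    ((bd_of_sz (L c)).mono (by omega)) i
  have h5 := sz_of_bd _ _ h4.2
  rw [h4.1] at h5
  refine h5.trans ?_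
  have h6 : (U c).length ≤ P.eval (sz c) := (length_le_sz _).trans h1
  have h7 : ((P * (2 * (P + Q + R) + 2) + 1 : Polynomial ℕ)).eval (sz c) =
      P.eval (sz c) * (2 * (P.eval (sz c) + Q.eval (sz c) + R.eval (sz c)) + 2) + 1 := by
    simp
  rw [h7]
  exact Nat.succ_le_succ (Nat.mul_le_mul_right _ h6)

theorem PF.pnts {L : γ → PL} (hL : PF L) : PF (fun c => W_d799b0_g54.pnts (L c)) :=
  PF.flatMap (g := fun _ (p : List Bool × List Bool) => [p.1, p.2])
    (PF.cons PF.snd'.fst (PF.cons PF.snd'.snd (PF.const []))) hL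

theorem PF.res {s : γ → TS} {L : γ → PL} (hs : PF s) (hL : PF L) :
    PF (fun c => W_d799b0_g54.res (s c) (L c)) :=
  PF.sift (hs.fst.append (PF.pnts hL)) hs.snd hL

theorem PF.bstep {s : γ → TS} {L : γ → PL} (hL : PF L) (hs : PF s) :
    PF (fun c => W_d799b0_g54.bstep (L c) (s c)) := by
  unfold W_d799b0_g54.bstep
  exact PF.pair (hs.fst.append (PF.pnts hL)) (PF.ite
    (W_d799b0_h82.pf_isEmpty (PF.key (PF.res hs hL))) hs.snd ((PF.res hs hL).cons hs.snd))

theorem PF.build {M : γ → List PL} (hM : PF M) : PF (fun c => W_d799b0_g54.build (M c)) := by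
  obtain ⟨P, hP⟩ := hM.bound
  refine W_d799b0_h82.pf_foldr (f := fun _ L s => W_d799b0_g54.bstep L s)
    (PF.bstep PF.fst'.snd PF.snd') (PF.const ([], [])) hM
    ((P * (P + 1) + 1) + (P * (P * (2 * P + 2) + 2) + 1) + 1) ?_
  intro c l' hl'
  have h1 := hP c
  have h2 : ∀ L ∈ l', sz L ≤ P.eval (sz c) := fun L hL =>
    (sz_mem (hl'.subset hL)).le.trans h1
  have h3 : sz l' ≤ P.eval (sz c) := by
    obtain ⟨t, ht⟩ := hl'
    have h4 := sz_append t l'
    have h5 := sz_pos t
    rw [ht] at h4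
    omega
  have h4 : SBd (P.eval (sz c)) (P.eval (sz c)) (W_d799b0_g54.build l') := by
    obtain ⟨h5, h6, h7, h8⟩ := build_bd (P.eval (sz c)) l' h2
    exact ⟨h5.trans h3, h6, h7.trans h3, fun g hg => ⟨(h8 g hg).1.trans h3, (h8 g hg).2⟩⟩
  have h5 := sz_of_sbd _ _ _ h4
  refine le_trans (le_of_eq ?_) (h5.trans (le_of_eq ?_))
  · rfl
  · simp

end

/-- **The test runs in polynomial time.** -/
theorem pf_CG : PF CG := by
  unfold CG
  exact W_d799b0_h82.pf_isEmpty (PF.key (PF.res (PF.build PF.id'.tail)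
    (W_d799b0_h82.pf_headD (PF.const []) PF.id')))

end Pool.Agent.W_d799b0_g54
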