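import Pool.Agent.W_d799b0_g54.CandP
import Pool.Agent.W_d799b0_g54.LeftP
import Pool.Agent.W_d799b0_g54.SiftP
import Pool.Agent.W_d799b0_g54.Enc
import Pool.Agent.W_d799b0_h82.PinNP

/-!
# P = NP if every language in NP is a nested difference of permutation group membership problems
-/

set_option autoImplicit false

open Turing Computability

namespace Pool.Agent.W_d799b0_g54

open Pool.Agent.PolyTime Function
open Pool.Agent.W_d799b0_h82

theorem GroupTest.sc {B : Set (List Bool)} (h : GroupTest B) : SC B := by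
  obtain ⟨f, G, p, hf, hG, hB⟩ := h
  refine ⟨PL, inferInstance, f, CG, fun n => {L | perm L ∈ G n}, p * p, pf_of_encP hf, pf_CG,
    ?_, ?_, hB⟩
  · intro n L M hM hL
    exact CG_sound L M hM hL
  · intro n M hM hC
    have h1 := CG_chain (hG n).1 M hM hC
    rw [Polynomial.eval_mul]
    exact h1.trans (Nat.mul_le_mul (hG n).2 (hG n).2)

theorem ChainTest.sc {B : Set (List Bool)} (h : ChainTest B) : SC B := by
  obtain ⟨f, C, G, p, hf, hC, hs, hc, hB⟩ := h
  refine ⟨List Bool, inferInstance, f, C, G, p, ?_, ?_, hs, hc, hB⟩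
  · have h1 : Poly en (fun y : List Bool => y) f := Poly.comp treeStr hf
    exact Poly.comp (f := f) (g := fun y : List Bool => y) h1 strTree
  · exact PB.toPF (Poly.comp treeL hC)

theorem InP.groupTest {A : Set (List Bool)} (h : InP A) : GroupTest A := by
  obtain ⟨χ, hχ, hA⟩ := h
  have h1 : PF χ := PB.toPF (Poly.comp treeStr hχ)
  refine ⟨fun x => if χ x then [] else [([], [true])], fun _ => ⊥, 0, ?_, ?_, ?_⟩
  · exact toEncP (PF.ite h1 (PF.const []) (PF.const _))
  · intro n
    have h2 : {y : List Bool | ∃ g ∈ (⊥ : Subgroup (Equiv.Perm (List Bool))), g y ≠ y} = ∅ := by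
      rw [Set.eq_empty_iff_forall_notMem]
      rintro y ⟨g, hg, hy⟩
      rw [Subgroup.mem_bot] at hg
      rw [hg] at hy
      exact hy rfl
    rw [h2]
    simp
  · intro x
    rw [hA x, Subgroup.mem_bot]
    beta_reduce
    by_cases hx : χ x = true
    · rw [if_pos hx]
      simp [perm, hx]
    · rw [if_neg hx]
      refine ⟨fun h2 => absurd h2 hx, fun h2 => ?_⟩
      have h3 : perm [([], [true])] [] = [true] := by
        simp [perm]
      rw [h2] at h3
      simp at h3

/-- **Main theorem.** -/
theorem final_nested : (∀ A : Set (List Bool), InNP A ↔ InP A) ↔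
    ∀ A : Set (List Bool), InNP A → ∃ Bs : List (Set (List Bool)),
      (∀ B ∈ Bs, GroupTest B ∨ ChainTest B) ∧ A = nestedDiff Bs := by
  constructor
  · intro h A hA
    refine ⟨[A], ?_, ?_⟩
    · intro B hB
      rw [List.mem_singleton.1 hB]
      exact Or.inl (InP.groupTest ((h A).1 hA))
    · simp [nestedDiff]
  · intro h A
    refine ⟨fun hA => inP_of_candFor ?_ A hA, fun hA => InP.inNP hA⟩
    intro A hA
    obtain ⟨Bs, h1, rfl⟩ := h A hA
    refine candFor_nestedDiff Bs fun B hB => ?_
    rcases h1 B hB with h2 | h2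
    · exact h2.sc
    · exact h2.sc

end Pool.Agent.W_d799b0_g54
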