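import Pool.Agent.W_d799b0_g54.Defs
import Pool.Agent.W_d799b0_h82.PFunL

/-!
# Internal forms of the two notions

`SC B`: as `ChainTest`, with arbitrary types represented by trees.
`CandFor A`: from a list of strings of the same length `n`, first strings in `A`, then strings not in
`A`, one can compute in polynomial time few candidates for the number of the strings in `A`; their
number is at most polynomial in `n`.
-/

set_option autoImplicit false

namespace Pool.Agent.W_d799b0_g54

open Pool.Agent.PolyTime

/-- membership in sets with short chains; `α` is any type represented by trees -/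
def SC (B : Set (List Bool)) : Prop :=
  ∃ (α : Type) (_ : ToD α) (f : List Bool → α) (C : List α → Bool) (G : ℕ → Set α)
    (p : Polynomial ℕ), PF f ∧ PF C ∧
    (∀ n y L, (∀ z ∈ L, z ∈ G n) → C (y :: L) = true → y ∈ G n) ∧
    (∀ n L, (∀ z ∈ L, z ∈ G n) → (∀ M, M <:+ L → M ≠ [] → C M = false) →
      L.length ≤ p.eval n) ∧
    ∀ x, x ∈ B ↔ f x ∈ G x.length

/-- few candidates for the boundary -/
def CandFor (A : Set (List Bool)) : Prop :=
  ∃ (cand : ℕ × List (List Bool) → List ℕ) (Q : Polynomial ℕ), PF cand ∧
    (∀ n xs, (cand (n, xs)).length ≤ Q.eval n) ∧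
    ∀ n ys zs, (∀ x ∈ ys ++ zs, x.length = n) → (∀ x ∈ ys, x ∈ A) → (∀ x ∈ zs, x ∉ A) →
      ys.length ∈ cand (n, ys ++ zs)

end Pool.Agent.W_d799b0_g54
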