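import Pool.Agent.W_d799b0_h42.NPT
import Pool.Agent.W_d799b0_g54.SC

/-!
# Left sets of witnesses and the search

For a verifier `W` the left set contains the (code of the) pair `(x, u)` iff there is a witness `B`
for `x` of the same length as `u` with `u ≤ B` (as binary numbers). The search keeps a sorted list of
prefixes that contains the prefix of the largest witness; in each round all prefixes are extended by
one bit, and only those are kept that are given by the candidates for the boundary in the list of the
instances of the left set.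
-/

set_option autoImplicit false

namespace Pool.Agent.W_d799b0_g54

open Pool.Agent.PolyTime Function
open Pool.Agent.W_d799b0_h82 (InNP val extL)

/-- bits with their complements: codes of lists of the same length have the same length -/
def bal (x : List Bool) : List (Bool × Bool) := x.map fun b => (b, !b)

theorem bal_fst (x : List Bool) : (bal x).map (fun b => b.1) = x := by
  unfold bal
  rw [List.map_map]
  simp [Function.comp_def]

theorem bal_length (x : List Bool) : (bal x).length = x.length := by
  unfold bal
  rw [List.length_map]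

theorem sz_bal (x : List Bool) : sz (bal x) = 6 * x.length + 1 := by
  induction x with
  | nil => rfl
  | cons b x ih =>
    have h1 : bal (b :: x) = (b, !b) :: bal x := rfl
    rw [h1, sz_cons, ih, sz_pair, List.length_cons]
    cases b <;> simp <;> omega

/-- the instance of the left set -/
def inst (x u : List Bool) : List Bool := en (bal x, bal u)

theorem length_inst (x u : List Bool) :
    (inst x u).length = 6 * x.length + 6 * u.length + 3 := by
  have h1 : (inst x u).length = sz (bal x, bal u) := rfl
  rw [h1, sz_pair, sz_bal, sz_bal]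
  omega

/-- the value as a binary number, most significant bit first -/
def ky (v : List Bool) : ℕ := val v.reverse

/-- the verifier of the left set -/
def verL (W : List Bool → List Bool → Bool)
    (q : (List (Bool × Bool) × List (Bool × Bool)) × List Bool) : Bool :=
  W (q.1.1.map fun b => b.1) q.2 && (decide (q.2.length = q.1.2.length) &&
    decide (ky (q.1.2.map fun b => b.1) ≤ ky q.2))

theorem pf_ky {γ : Type} [ToD γ] {v : γ → List Bool} (hv : PF v) : PN (fun c => ky (v c)) :=
  PN.val (f := fun c => (v c).reverse) hv.reverse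

theorem exists_left {W : List Bool → List Bool → Bool}
    (hW : PF (fun q : List Bool × List Bool => W q.1 q.2)) :
    ∃ A : Set (List Bool), InNP A ∧ ∀ x u, inst x u ∈ A ↔
      ∃ B : List Bool, B.length = u.length ∧ W x B = true ∧ ky u ≤ ky B := by
  have hver : PF (verL W) := by
    have h1 : PF (fun q : (List (Bool × Bool) × List (Bool × Bool)) × List Bool =>
        q.1.1.map fun b => b.1) :=
      PF.map (g := fun _ (b : Bool × Bool) => b.1) PF.snd'.fst PF.fst'.fst
    have h2 : PF (fun q : (List (Bool × Bool) × List (Bool × Bool)) × List Bool =>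
        q.1.2.map fun b => b.1) :=
      PF.map (g := fun _ (b : Bool × Bool) => b.1) PF.snd'.fst PF.fst'.snd
    unfold verL
    exact PF.and (hW.comp (h1.pair PF.snd')) (PF.and (PF.natEq PF.snd'.length PF.fst'.snd.length)
      (PN.le (pf_ky h2) (pf_ky PF.snd')))
  obtain ⟨A, hA, h⟩ := exists_inNP hver Polynomial.X
  refine ⟨A, hA, fun x u => ?_⟩
  have h1 := h (bal x, bal u)
  unfold inst
  rw [h1]
  unfold verL
  simp only [bal_fst, bal_length, Bool.and_eq_true, decide_eq_true_eq, Polynomial.eval_X]
  constructor
  · rintro ⟨B, -, h2, h3, h4⟩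
    exact ⟨B, h3, h2, h4⟩
  · rintro ⟨B, h3, h2, h4⟩
    refine ⟨B, ?_, h2, h3, h4⟩
    rw [sz_pair, sz_bal, sz_bal, h3]
    omega

section

variable (cand : ℕ × List (List Bool) → List ℕ)

/-- the instances for a list of prefixes -/
def insts (N : ℕ) (x : List Bool) (L : List (List Bool)) : List (List Bool) :=
  L.map fun v => inst x (v ++ List.replicate (N - v.length) false)

/-- keep the elements of `L` at the positions before those in `c` -/
def keep (c : List ℕ) (L : List (List Bool)) : List (List Bool) :=
  (L.zipIdx.filter fun p => c.any fun i => decide (i = p.2 + 1)).map fun p => p.1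

/-- one round of the search -/
def stepL (N : ℕ) (x : List Bool) (L : List (List Bool)) : List (List Bool) :=
  keep (cand (6 * x.length + 6 * N + 3, insts N x (extL L))) (extL L)

/-- the search -/
def runL (W : List Bool → List Bool → Bool) (N : ℕ) (x : List Bool) : Bool :=
  ((stepL cand N x)^[N] [[]]).any fun v => decide (v.length = N) && W x v

end

theorem keep_length (c : List ℕ) (L : List (List Bool)) : (keep c L).length ≤ c.length := by
  unfold keep
  rw [List.length_map]
  have h1 : ((L.zipIdx.filter fun p => c.any fun i => decide (i = p.2 + 1)).map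
      fun p => p.2 + 1).Nodup := by
    have h2 : (L.zipIdx.map fun p => p.2 + 1).Nodup := by
      have h3 : (L.zipIdx.map fun p => p.2 + 1) = (L.zipIdx.map Prod.snd).map (· + 1) := by
        rw [List.map_map]
        rfl
      rw [h3, List.zipIdx_map_snd]
      exact (List.nodup_range').map (fun a b h => Nat.succ_injective h)
    exact h2.sublist ((List.filter_sublist).map _)
  have h4 : ((L.zipIdx.filter fun p => c.any fun i => decide (i = p.2 + 1)).map
      fun p => p.2 + 1) ⊆ c := by
    intro i hi
    obtain ⟨p, hp, rfl⟩ := List.mem_map.1 hi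
    have h5 := (List.mem_filter.1 hp).2
    rw [List.any_eq_true] at h5
    obtain ⟨i, hi, h6⟩ := h5
    rw [decide_eq_true_eq] at h6
    rwa [h6] at hi
  have h7 := (List.subperm_of_subset h1 h4).length_le
  rwa [List.length_map] at h7

theorem keep_sublist (c : List ℕ) (L : List (List Bool)) : (keep c L).Sublist L := by
  have h1 : (keep c L).Sublist (L.zipIdx.map fun p => p.1) := (List.filter_sublist).map _
  have h2 : (L.zipIdx.map fun p => p.1) = L := List.zipIdx_map_fst 0 L
  rwa [h2] at h1

theorem mem_keep (c : List ℕ) (L1 L2 : List (List Bool)) (v : List Bool)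
    (h : L1.length + 1 ∈ c) : v ∈ keep c (L1 ++ v :: L2) := by
  unfold keep
  refine List.mem_map.2 ⟨(v, L1.length), List.mem_filter.2 ⟨?_, ?_⟩, rfl⟩
  · rw [List.zipIdx_append, List.zipIdx_cons, Nat.zero_add]
    exact List.mem_append_right _ List.mem_cons_self
  · rw [List.any_eq_true]
    exact ⟨_, h, decide_eq_true rfl⟩

theorem ky_snoc (v : List Bool) (b : Bool) : ky (v ++ [b]) = b.toNat + 2 * ky v := by
  unfold ky
  rw [List.reverse_append]
  rfl

theorem ky_lt (v : List Bool) : ky v < 2 ^ v.length := by
  have h1 := val_lt v.reverse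
  rwa [List.length_reverse] at h1

theorem ky_append (u v : List Bool) : ky (u ++ v) = ky v + 2 ^ v.length * ky u := by
  unfold ky
  rw [List.reverse_append, val_append, List.length_reverse]

theorem ky_replicate (k : ℕ) : ky (List.replicate k false) = 0 := by
  unfold ky
  rw [List.reverse_replicate, val_replicate]

theorem ky_prefix {N : ℕ} {h v : List Bool} (hh : h.length = N) :
    ky (v ++ List.replicate (N - v.length) false) ≤ ky h ↔ ky v ≤ ky (h.take v.length) := by
  have h1 : ky h = ky (h.drop v.length) + 2 ^ (N - v.length) * ky (h.take v.length) := by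
    conv_lhs => rw [← List.take_append_drop v.length h]
    rw [ky_append, List.length_drop, hh]
  have h2 : ky (h.drop v.length) < 2 ^ (N - v.length) := by
    have h3 := ky_lt (h.drop v.length)
    rwa [List.length_drop, hh] at h3
  rw [h1, ky_append, ky_replicate, List.length_replicate, Nat.zero_add]
  constructor
  · intro h3
    by_contra h4
    have h5 : ky (h.take v.length) + 1 ≤ ky v := by omega
    have h6 := Nat.mul_le_mul_left (2 ^ (N - v.length)) h5
    rw [Nat.mul_add, Nat.mul_one] at h6
    omega
  · intro h3
    have h6 := Nat.mul_le_mul_left (2 ^ (N - v.length)) h3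
    omega

theorem extL_pairwise (L : List (List Bool)) (h : L.Pairwise fun a b => ky a < ky b) :
    (extL L).Pairwise fun a b => ky a < ky b := by
  unfold extL
  rw [List.pairwise_flatMap]
  constructor
  · intro v _
    simp [ky_snoc]
  · refine h.imp ?_
    intro a b hab u hu w hw
    simp only [List.mem_cons, List.not_mem_nil, or_false] at hu hw
    rcases hu with rfl | rfl <;> rcases hw with rfl | rfl <;> simp only [ky_snoc] <;> simp <;>
      omega

theorem extL_length_mem (L : List (List Bool)) (j : ℕ) (h : ∀ v ∈ L, v.length = j) :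
    ∀ v ∈ extL L, v.length = j + 1 := by
  intro v hv
  unfold extL at hv
  obtain ⟨w, hw, hv⟩ := List.mem_flatMap.1 hv
  simp only [List.mem_cons, List.not_mem_nil, or_false] at hv
  rcases hv with rfl | rfl <;> simp [h w hw]

/-- the largest witness -/
theorem exists_max (W : List Bool → List Bool → Bool) (N : ℕ) (x : List Bool)
    (hB : ∃ B : List Bool, B.length = N ∧ W x B = true) :
    ∃ h : List Bool, h.length = N ∧ W x h = true ∧
      ∀ B : List Bool, B.length = N → W x B = true → ky B ≤ ky h := by
  have hfin : {B : List Bool | B.length = N ∧ W x B = true}.Finite :=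
    (List.finite_length_eq Bool N).subset fun B hB => hB.1
  obtain ⟨h, h1, h2⟩ := Set.exists_max_image _ ky hfin hB
  exact ⟨h, h1.1, h1.2, fun B hB1 hB2 => h2 B ⟨hB1, hB2⟩⟩

theorem stepL_inv {cand : ℕ × List (List Bool) → List ℕ} {A : Set (List Bool)}
    {W : List Bool → List Bool → Bool} {N : ℕ} {x h : List Bool}
    (hcand : ∀ n ys zs, (∀ x ∈ ys ++ zs, x.length = n) → (∀ x ∈ ys, x ∈ A) →
      (∀ x ∈ zs, x ∉ A) → ys.length ∈ cand (n, ys ++ zs))
    (hA : ∀ x u, inst x u ∈ A ↔
      ∃ B : List Bool, B.length = u.length ∧ W x B = true ∧ ky u ≤ ky B)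
    (hh : h.length = N) (hW : W x h = true)
    (hmax : ∀ B : List Bool, B.length = N → W x B = true → ky B ≤ ky h)
    (j : ℕ) (hj : j < N) (L : List (List Bool)) (h1 : ∀ v ∈ L, v.length = j)
    (h2 : L.Pairwise fun a b => ky a < ky b) (h3 : h.take j ∈ L) :
    (∀ v ∈ stepL cand N x L, v.length = j + 1) ∧
      (stepL cand N x L).Pairwise (fun a b => ky a < ky b) ∧ h.take (j + 1) ∈ stepL cand N x L := by
  have e1 := extL_length_mem L j h1
  have e2 := extL_pairwise L h2
  have e3 : h.take (j + 1) ∈ extL L := by
    unfold extL
    refine List.mem_flatMap.2 ⟨_, h3, ?_⟩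
    have h4 : h.take (j + 1) = h.take j ++ [h[j]'(by omega)] :=
      List.take_succ_eq_append_getElem (by omega)
    rw [h4]
    cases h[j]'(by omega) <;> simp
  have hlab : ∀ v : List Bool, v.length = j + 1 →
      (inst x (v ++ List.replicate (N - v.length) false) ∈ A ↔ ky v ≤ ky (h.take (j + 1))) := by
    intro v hv
    rw [hA, ← hv, ← ky_prefix hh]
    have hl : (v ++ List.replicate (N - v.length) false).length = N := by
      rw [List.length_append, List.length_replicate]
      omega
    rw [hl]
    constructor
    · rintro ⟨B, hB1, hB2, hB3⟩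
      exact hB3.trans (hmax B hB1 hB2)
    · intro h5
      exact ⟨h, hh, hW, h5⟩
  unfold stepL
  refine ⟨fun v hv => e1 v ((keep_sublist _ _).subset hv), e2.sublist (keep_sublist _ _), ?_⟩
  obtain ⟨L1, L2, hL⟩ := List.append_of_mem e3
  rw [hL] at e1 e2 ⊢
  apply mem_keep
  have h5 : insts N x (L1 ++ h.take (j + 1) :: L2) =
      insts N x (L1 ++ [h.take (j + 1)]) ++ insts N x L2 := by
    unfold insts
    rw [← List.map_append, List.append_assoc]
    rfl
  have h6 : (insts N x (L1 ++ [h.take (j + 1)])).length = L1.length + 1 := by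
    unfold insts
    rw [List.length_map, List.length_append]
    rfl
  rw [h5, ← h6]
  rw [List.pairwise_append] at e2
  obtain ⟨-, e4, e5⟩ := e2
  rw [List.pairwise_cons] at e4
  apply hcand
  · intro y hy
    rw [← h5] at hy
    unfold insts at hy
    obtain ⟨v, hv, rfl⟩ := List.mem_map.1 hy
    have h7 := e1 v hv
    rw [length_inst, List.length_append, List.length_replicate]
    omega
  · intro y hy
    unfold insts at hy
    obtain ⟨v, hv, rfl⟩ := List.mem_map.1 hy
    have h8 : v ∈ L1 ++ h.take (j + 1) :: L2 := by
      rcases List.mem_append.1 hv with hv | hv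
      · exact List.mem_append_left _ hv
      · rw [List.mem_singleton.1 hv]
        exact List.mem_append_right _ List.mem_cons_self
    rw [hlab v (e1 v h8)]
    rcases List.mem_append.1 hv with hv | hv
    · exact (e5 v hv _ List.mem_cons_self).le
    · rw [List.mem_singleton.1 hv]
  · intro y hy
    unfold insts at hy
    obtain ⟨v, hv, rfl⟩ := List.mem_map.1 hy
    rw [hlab v (e1 v (List.mem_append_right _ (List.mem_cons_of_mem _ hv))), not_le]
    exact e4.1 v hv

theorem runL_complete {cand : ℕ × List (List Bool) → List ℕ} {A : Set (List Bool)}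
    {W : List Bool → List Bool → Bool} {N : ℕ} {x : List Bool}
    (hcand : ∀ n ys zs, (∀ x ∈ ys ++ zs, x.length = n) → (∀ x ∈ ys, x ∈ A) →
      (∀ x ∈ zs, x ∉ A) → ys.length ∈ cand (n, ys ++ zs))
    (hA : ∀ x u, inst x u ∈ A ↔
      ∃ B : List Bool, B.length = u.length ∧ W x B = true ∧ ky u ≤ ky B)
    (hB : ∃ B : List Bool, B.length = N ∧ W x B = true) : runL cand W N x = true := by
  obtain ⟨h, hh, hW, hmax⟩ := exists_max W N x hB
  have key : ∀ i ≤ N, (∀ v ∈ (stepL cand N x)^[i] [[]], v.length = i) ∧
      ((stepL cand N x)^[i] [[]]).Pairwise (fun a b => ky a < ky b) ∧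
      h.take i ∈ (stepL cand N x)^[i] [[]] := by
    intro i
    induction i with
    | zero =>
      intro _
      simp
    | succ i ih =>
      intro hi
      obtain ⟨h1, h2, h3⟩ := ih (by omega)
      rw [iterate_succ_apply']
      exact stepL_inv hcand hA hh hW hmax i (by omega) _ h1 h2 h3
  obtain ⟨-, -, h3⟩ := key N le_rfl
  rw [List.take_of_length_le hh.le] at h3
  unfold runL
  rw [List.any_eq_true]
  refine ⟨h, h3, ?_⟩
  rw [Bool.and_eq_true, decide_eq_true_eq]
  exact ⟨hh, hW⟩

theorem runL_sound {cand : ℕ × List (List Bool) → List ℕ}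
    {W : List Bool → List Bool → Bool} {N : ℕ} {x : List Bool} (h : runL cand W N x = true) :
    ∃ B : List Bool, B.length = N ∧ W x B = true := by
  unfold runL at h
  rw [List.any_eq_true] at h
  obtain ⟨v, -, h1⟩ := h
  rw [Bool.and_eq_true, decide_eq_true_eq] at h1
  exact ⟨v, h1⟩

end Pool.Agent.W_d799b0_g54
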