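import Pool.Agent.W_d799b0_g54.Defs

/-!
# Sifting in permutation groups

A permutation is represented by a table, a list of pairs (point, image). `key w` is the first point
that is moved, together with its image. To sift a permutation through a list `T` of tables one divides
by the entry of `T` with the same key, as long as there is one. Since all tables list their points in
the same order, each division increases the number of the first points that are fixed.
-/

set_option autoImplicit false

namespace Pool.Agent.W_d799b0_g54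

open Function Equiv

/-- lists of pairs of strings -/
abbrev PL := List (List Bool × List Bool)

/-- the value of the product of the transpositions -/
def app (L : PL) (u : List Bool) : List Bool :=
  L.foldr (fun p v => if v == p.1 then p.2 else if v == p.2 then p.1 else v) u

/-- all strings of the list -/
def pnts (L : PL) : List (List Bool) := L.flatMap fun p => [p.1, p.2]

/-- the preimage in a table -/
def rlook (g : PL) (v : List Bool) : List Bool :=
  ((g.filter fun p => p.2 == v).map fun p => p.1).headD v

/-- the table of the product of the transpositions -/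
def nrm (U : List (List Bool)) (L : PL) : PL := U.map fun u => (u, app L u)

/-- division of tables -/
def quo (g w : PL) : PL := w.map fun p => (p.1, rlook g p.2)

/-- the first point that is moved, with its image -/
def key (w : PL) : PL := (w.filter fun p => !(p.1 == p.2)).take 1

/-- the entries with the same key -/
def same (T : List PL) (w : PL) : List PL := T.filter fun g => key g == key w

/-- one division -/
def sstep (T : List PL) (w : PL) : PL :=
  if (key w).isEmpty || (same T w).isEmpty then w else quo ((same T w).headD []) w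

/-- sifting -/
def sift (U : List (List Bool)) (T : List PL) (L : PL) : PL := (sstep T)^[U.length] (nrm U L)

/-- the points and the tables -/
abbrev TS := List (List Bool) × List PL

/-- the result of sifting -/
def res (s : TS) (L : PL) : PL := sift (s.1 ++ pnts L) s.2 L

/-- insert a permutation -/
def bstep (L : PL) (s : TS) : TS :=
  (s.1 ++ pnts L, if (key (res s L)).isEmpty then s.2 else res s L :: s.2)

/-- insert all permutations of a list -/
def build (M : List PL) : TS := M.foldr bstep ([], [])

/-- the first permutation of the list sifts through the tables of the others -/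
def CG (M : List PL) : Bool := (key (res (build M.tail) (M.headD []))).isEmpty

/-! ### Meaning -/

theorem app_eq (L : PL) (u : List Bool) : app L u = perm L u := by
  unfold app perm
  induction L with
  | nil => rfl
  | cons p L ih =>
    rw [List.foldr_cons, ih, List.map_cons, List.prod_cons, Perm.mul_apply, swap_apply_def]
    simp only [beq_iff_eq]

theorem perm_fix (L : PL) (u : List Bool) (h : u ∉ pnts L) : perm L u = u := by
  unfold perm
  induction L with
  | nil => rfl
  | cons p L ih =>
    have h1 : pnts (p :: L) = p.1 :: p.2 :: pnts L := rfl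
    rw [h1, List.mem_cons, List.mem_cons] at h
    push Not at h
    rw [List.map_cons, List.prod_cons, Perm.mul_apply, ih h.2.2]
    exact swap_apply_of_ne_of_ne h.1 h.2.1

/-- the table of a permutation -/
def tab (U : List (List Bool)) (k : Perm (List Bool)) : PL := U.map fun u => (u, k u)

theorem nrm_eq (U : List (List Bool)) (L : PL) : nrm U L = tab U (perm L) := by
  unfold nrm tab
  simp only [app_eq]

private theorem SiftA_head {β : Type} (a d : β) (l : List β) (h1 : ∀ x ∈ l, x = a)
    (h2 : l = [] → d = a) : l.headD d = a := by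
  cases l with
  | nil => exact h2 rfl
  | cons x l => exact h1 x List.mem_cons_self

theorem rlook_tab (V : List (List Bool)) (h : Perm (List Bool)) (hV : ∀ y, y ∉ V → h y = y)
    (v : List Bool) : rlook (tab V h) v = h⁻¹ v := by
  unfold rlook tab
  apply SiftA_head
  · intro x hx
    obtain ⟨⟨a, b⟩, h1, rfl⟩ := List.mem_map.1 hx
    rw [List.mem_filter, List.mem_map] at h1
    obtain ⟨⟨u, -, h2⟩, h3⟩ := h1
    simp only [Prod.mk.injEq] at h2
    simp only [beq_iff_eq] at h3
    rw [Perm.eq_inv_iff_eq, ← h3, ← h2.1, ← h2.2]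
  · intro h1
    rw [List.map_eq_nil_iff, List.filter_eq_nil_iff] at h1
    rw [Perm.eq_inv_iff_eq]
    by_contra h2
    have hinv : h (h⁻¹ v) = v := h.apply_symm_apply v
    have h3 : h⁻¹ v ∈ V := by
      by_contra h4
      have h5 := hV _ h4
      rw [hinv] at h5
      apply h2
      nth_rewrite 1 [h5]
      exact hinv
    have h6 := h1 (h⁻¹ v, h (h⁻¹ v)) (List.mem_map_of_mem h3)
    simp at h6

theorem quo_tab (V U : List (List Bool)) (h k : Perm (List Bool)) (hV : ∀ y, y ∉ V → h y = y) :
    quo (tab V h) (tab U k) = tab U (h⁻¹ * k) := by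
  unfold quo
  conv_lhs => rw [show tab U k = U.map fun u => (u, k u) from rfl]
  rw [List.map_map]
  unfold tab
  apply List.map_congr_left
  intro u _
  simp only [comp_apply]
  rw [Perm.mul_apply, ← rlook_tab V h hV]
  rfl

theorem key_nil (U : List (List Bool)) (k : Perm (List Bool)) :
    key (tab U k) = [] ↔ ∀ u ∈ U, k u = u := by
  unfold key tab
  rw [List.take_eq_nil_iff]
  simp only [one_ne_zero, false_or, List.filter_eq_nil_iff, List.mem_map, Bool.not_eq_true,
    Bool.not_eq_false', beq_iff_eq, forall_exists_index, and_imp, forall_apply_eq_imp_iff₂]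
  exact ⟨fun h u hu => (h u hu).symm, fun h u hu => (h u hu).symm⟩

theorem key_split (U1 U2 : List (List Bool)) (p : List Bool) (k : Perm (List Bool))
    (h1 : ∀ u ∈ U1, k u = u) (h2 : k p ≠ p) : key (tab (U1 ++ p :: U2) k) = [(p, k p)] := by
  unfold key tab
  rw [List.map_append, List.filter_append]
  have h3 : ((U1.map fun u => (u, k u)).filter fun q => !(q.1 == q.2)) = [] := by
    rw [List.filter_eq_nil_iff]
    intro q hq
    obtain ⟨u, hu, rfl⟩ := List.mem_map.1 hq
    simp [h1 u hu]
  rw [h3, List.nil_append, List.map_cons, List.filter_cons_of_pos]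
  · rfl
  · simp [Ne.symm h2]

theorem exists_split (U : List (List Bool)) (k : Perm (List Bool)) (h : ¬ ∀ u ∈ U, k u = u) :
    ∃ U1 p U2, U = U1 ++ p :: U2 ∧ (∀ u ∈ U1, k u = u) ∧ k p ≠ p := by
  induction U with
  | nil => exact absurd (fun u hu => absurd hu List.not_mem_nil) h
  | cons a U ih =>
    by_cases ha : k a = a
    · obtain ⟨U1, p, U2, h1, h2, h3⟩ := ih (by
        intro h4
        apply h
        intro u hu
        rcases List.mem_cons.1 hu with rfl | hu
        · exact ha
        · exact h4 u hu)
      refine ⟨a :: U1, p, U2, by rw [h1]; rfl, ?_, h3⟩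
      intro u hu
      rcases List.mem_cons.1 hu with rfl | hu
      · exact ha
      · exact h2 u hu
    · exact ⟨[], a, U, rfl, by simp, ha⟩

/-- the number of the first points that are fixed -/
def fm (U : List (List Bool)) (k : Perm (List Bool)) : ℕ :=
  (U.takeWhile fun u => k u == u).length

theorem fm_split (U1 U2 : List (List Bool)) (p : List Bool) (k : Perm (List Bool))
    (h1 : ∀ u ∈ U1, k u = u) (h2 : k p ≠ p) : fm (U1 ++ p :: U2) k = U1.length := by
  unfold fm
  rw [List.takeWhile_append_of_pos (by simpa using h1), List.takeWhile_cons_of_neg (by simpa),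
    List.append_nil]

theorem le_fm (U1 U2 : List (List Bool)) (k : Perm (List Bool))
    (h1 : ∀ u ∈ U1, k u = u) : U1.length ≤ fm (U1 ++ U2) k := by
  unfold fm
  rw [List.takeWhile_append_of_pos (by simpa using h1), List.length_append]
  omega

theorem fm_full (U : List (List Bool)) (k : Perm (List Bool)) (h : U.length ≤ fm U k) :
    ∀ u ∈ U, k u = u := by
  by_contra h1
  obtain ⟨U1, p, U2, rfl, h2, h3⟩ := exists_split U k h1
  rw [fm_split U1 U2 p k h2 h3, List.length_append, List.length_cons] at h
  omega

private theorem SiftA_first (p : List Bool) (U1 U2 V1 V2 : List (List Bool))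
    (h : U1 ++ p :: U2 = V1 ++ p :: V2) (h1 : p ∉ U1) (h2 : p ∉ V1) : U1 = V1 := by
  have e : ∀ A B : List (List Bool), p ∉ A →
      (A ++ p :: B).takeWhile (fun u => !(u == p)) = A := by
    intro A B hA
    rw [List.takeWhile_append_of_pos, List.takeWhile_cons_of_neg, List.append_nil]
    · simp
    · intro a ha
      simp only [Bool.not_eq_true', beq_eq_false_iff_ne]
      rintro rfl
      exact hA ha
  rw [← e U1 U2 h1, h, e V1 V2 h2]

theorem progress (V U : List (List Bool)) (h k : Perm (List Bool)) (hVU : V <+: U)
    (hk : key (tab V h) = key (tab U k)) (hne : key (tab U k) ≠ []) :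
    fm U k < fm U (h⁻¹ * k) := by
  have h1 : ¬ ∀ u ∈ U, k u = u := fun h2 => hne ((key_nil U k).2 h2)
  have h2 : ¬ ∀ u ∈ V, h u = u := fun h3 => hne (hk ▸ (key_nil V h).2 h3)
  obtain ⟨U1, p, U2, hU, hU1, hp⟩ := exists_split U k h1
  obtain ⟨V1, q, V2, hV, hV1, hq⟩ := exists_split V h h2
  rw [hU, hV, key_split _ _ _ _ hU1 hp, key_split _ _ _ _ hV1 hq] at hk
  simp only [List.cons.injEq, Prod.mk.injEq, and_true] at hk
  obtain ⟨rfl, hk⟩ := hk
  obtain ⟨R, hR⟩ := hVU
  have h3 : U1 = V1 := by
    refine SiftA_first q U1 U2 V1 (V2 ++ R) ?_ (fun hm => hp (hU1 _ hm)) (fun hm => hq (hV1 _ hm))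
    rw [← hU, ← hR, hV, List.append_assoc]
    rfl
  subst h3
  rw [hU, fm_split _ _ _ _ hU1 hp]
  have h4 : U1 ++ q :: U2 = (U1 ++ [q]) ++ U2 := by
    rw [List.append_assoc]
    rfl
  rw [h4]
  refine lt_of_lt_of_le ?_ (le_fm (U1 ++ [q]) U2 _ ?_)
  · rw [List.length_append]
    simp
  · intro u hu
    rw [Perm.mul_apply, Perm.inv_eq_iff_eq]
    rcases List.mem_append.1 hu with hu | hu
    · rw [hU1 u hu, hV1 u hu]
    · rw [List.mem_singleton.1 hu, hk]

/-- entries of the list of tables -/
def Ent (G : Subgroup (Perm (List Bool))) (U : List (List Bool)) (g : PL) : Prop :=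
  ∃ (V : List (List Bool)) (h : Perm (List Bool)), V <+: U ∧ h ∈ G ∧ (∀ y, y ∉ V → h y = y) ∧
    h ≠ 1 ∧ g = tab V h

theorem Ent.mono {G : Subgroup (Perm (List Bool))} {U U' : List (List Bool)} {g : PL}
    (h : Ent G U g) (hU : U <+: U') : Ent G U' g := by
  obtain ⟨V, h, h1, h2, h3, h4, h5⟩ := h
  exact ⟨V, h, h1.trans hU, h2, h3, h4, h5⟩

theorem sift_iter {G : Subgroup (Perm (List Bool))} {U : List (List Bool)} {T : List PL}
    (hT : ∀ g ∈ T, Ent G U g) (k : Perm (List Bool)) (i : ℕ) :
    ∃ γ ∈ G, (∀ y, y ∉ U → γ y = y) ∧ (sstep T)^[i] (tab U k) = tab U (γ * k) ∧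
      (i ≤ fm U (γ * k) ∨ key (tab U (γ * k)) = [] ∨ same T (tab U (γ * k)) = []) := by
  induction i with
  | zero =>
    refine ⟨1, G.one_mem, fun y _ => rfl, ?_, Or.inl (Nat.zero_le _)⟩
    rw [one_mul]
    rfl
  | succ i ih =>
    obtain ⟨γ, hγ, hfix, hit, hor⟩ := ih
    rw [iterate_succ_apply', hit]
    by_cases hst : key (tab U (γ * k)) = [] ∨ same T (tab U (γ * k)) = []
    · refine ⟨γ, hγ, hfix, ?_, Or.inr hst⟩
      unfold sstep
      rw [if_pos]
      rw [Bool.or_eq_true, List.isEmpty_iff, List.isEmpty_iff]
      exact hst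
    · have hi : i ≤ fm U (γ * k) := hor.resolve_right hst
      push Not at hst
      obtain ⟨hk, hs⟩ := hst
      obtain ⟨g, l, hg⟩ := List.exists_cons_of_ne_nil hs
      have h1 : g ∈ same T (tab U (γ * k)) := by
        rw [hg]
        exact List.mem_cons_self
      unfold same at h1
      rw [List.mem_filter, beq_iff_eq] at h1
      obtain ⟨V, h, h2, h3, h4, h5, rfl⟩ := hT g h1.1
      refine ⟨h⁻¹ * γ, G.mul_mem (G.inv_mem h3) hγ, ?_, ?_, Or.inl ?_⟩
      · intro y hy
        rw [Perm.mul_apply, hfix y hy, Perm.inv_eq_iff_eq]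
        exact (h4 y fun hm => hy (h2.subset hm)).symm
      · unfold sstep
        rw [if_neg, hg]
        · rw [List.headD_cons, quo_tab _ _ _ _ h4, mul_assoc]
        · rw [Bool.or_eq_true, List.isEmpty_iff, List.isEmpty_iff]
          push Not
          exact ⟨hk, hs⟩
      · have h6 := progress V U h (γ * k) h2 h1.2 hk
        rw [mul_assoc]
        omega

theorem sift_spec {G : Subgroup (Perm (List Bool))} {U : List (List Bool)} {T : List PL}
    (hT : ∀ g ∈ T, Ent G U g) (L : PL) :
    ∃ γ ∈ G, (∀ y, y ∉ U → γ y = y) ∧ sift U T L = tab U (γ * perm L) ∧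
      (key (sift U T L) = [] ∨ same T (sift U T L) = []) := by
  obtain ⟨γ, hγ, hfix, hit, hor⟩ := sift_iter hT (perm L) U.length
  refine ⟨γ, hγ, hfix, ?_, ?_⟩
  · unfold sift
    rw [nrm_eq, hit]
  · unfold sift
    rw [nrm_eq, hit]
    rcases hor with h1 | h1
    · exact Or.inl ((key_nil _ _).2 (fm_full _ _ h1))
    · exact h1

theorem build_spec {G : Subgroup (Perm (List Bool))} (M : List PL) (hM : ∀ L ∈ M, perm L ∈ G) :
    (∀ g ∈ (build M).2, Ent G (build M).1 g) ∧ ((build M).2.map key).Nodup := by
  induction M with
  | nil => simp [build]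
  | cons L M ih =>
    obtain ⟨h1, h2⟩ := ih fun N hN => hM N (List.mem_cons_of_mem _ hN)
    have hb : build (L :: M) = bstep L (build M) := rfl
    rw [hb]
    unfold bstep
    have hT : ∀ g ∈ (build M).2, Ent G ((build M).1 ++ pnts L) g :=
      fun g hg => (h1 g hg).mono (List.prefix_append _ _)
    obtain ⟨γ, hγ, hfix, hs, hor⟩ := sift_spec hT L
    have hr : res (build M) L = sift ((build M).1 ++ pnts L) (build M).2 L := rfl
    rw [hr]
    by_cases hk : key (sift ((build M).1 ++ pnts L) (build M).2 L) = []
    · rw [hk]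
      exact ⟨hT, h2⟩
    · have h3 : ((key (sift ((build M).1 ++ pnts L) (build M).2 L)).isEmpty) = false := by
        rw [List.isEmpty_eq_false_iff]
        exact hk
      rw [h3]
      simp only [Bool.false_eq_true, if_false]
      constructor
      · intro g hg
        rcases List.mem_cons.1 hg with rfl | hg
        · refine ⟨(build M).1 ++ pnts L, γ * perm L, List.prefix_refl _,
            G.mul_mem hγ (hM L List.mem_cons_self), ?_, ?_, hs⟩
          · intro y hy
            rw [Perm.mul_apply, perm_fix L y fun hm => hy (List.mem_append_right _ hm)]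
            exact hfix y hy
          · intro h4
            apply hk
            rw [hs, h4, key_nil]
            intro u _
            rfl
        · exact hT g hg
      · rw [List.map_cons, List.nodup_cons]
        refine ⟨?_, h2⟩
        intro hmem
        obtain ⟨g, hg, h4⟩ := List.mem_map.1 hmem
        have h5 := hor.resolve_left hk
        unfold same at h5
        rw [List.filter_eq_nil_iff] at h5
        exact h5 g hg (by rw [beq_iff_eq]; exact h4)

/-- **Soundness.** -/
theorem CG_sound {G : Subgroup (Perm (List Bool))} (L : PL) (M : List PL)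
    (hM : ∀ L ∈ M, perm L ∈ G) (h : CG (L :: M) = true) : perm L ∈ G := by
  obtain ⟨h1, -⟩ := build_spec M hM
  have hT : ∀ g ∈ (build M).2, Ent G ((build M).1 ++ pnts L) g :=
    fun g hg => (h1 g hg).mono (List.prefix_append _ _)
  obtain ⟨γ, hγ, hfix, hs, -⟩ := sift_spec hT L
  have h2 : key (sift ((build M).1 ++ pnts L) (build M).2 L) = [] := by
    rw [← List.isEmpty_iff]
    exact h
  rw [hs, key_nil] at h2
  have h3 : γ * perm L = 1 := by
    ext1 y
    rw [Perm.one_apply]
    by_cases hy : y ∈ (build M).1 ++ pnts L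
    · exact h2 y hy
    · rw [Perm.mul_apply, perm_fix L y fun hm => hy (List.mem_append_right _ hm)]
      exact hfix y hy
  rw [← inv_eq_of_mul_eq_one_right h3]
  exact G.inv_mem hγ

theorem build_length (M : List PL) (h : ∀ N, N <:+ M → N ≠ [] → CG N = false) :
    (build M).2.length = M.length := by
  induction M with
  | nil => rfl
  | cons L M ih =>
    have hb : build (L :: M) = bstep L (build M) := rfl
    have h1 : (key (res (build M) L)).isEmpty = false :=
      h (L :: M) (List.suffix_refl _) (List.cons_ne_nil _ _)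
    rw [hb]
    unfold bstep
    rw [h1]
    simp only [Bool.false_eq_true, if_false]
    rw [List.length_cons, List.length_cons,
      ih fun N hN => h N (hN.trans (List.suffix_cons _ _))]

/-- **Chains are short.** -/
theorem CG_chain {G : Subgroup (Perm (List Bool))} (hfin : {y | ∃ g ∈ G, g y ≠ y}.Finite)
    (M : List PL) (hM : ∀ L ∈ M, perm L ∈ G) (h : ∀ N, N <:+ M → N ≠ [] → CG N = false) :
    M.length ≤ {y | ∃ g ∈ G, g y ≠ y}.ncard * {y | ∃ g ∈ G, g y ≠ y}.ncard := by
  classical
  obtain ⟨h1, h2⟩ := build_spec M hM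
  rw [← build_length M h, ← List.length_map (as := (build M).2) key,
    ← List.toFinset_card_of_nodup h2, Set.ncard_eq_toFinset_card _ hfin, ← Finset.card_product]
  refine (Finset.card_le_card (t := (hfin.toFinset ×ˢ hfin.toFinset).image fun q => [q]) ?_).trans
    Finset.card_image_le
  intro w hw
  rw [List.mem_toFinset, List.mem_map] at hw
  obtain ⟨g, hg, rfl⟩ := hw
  obtain ⟨V, k, -, hk, hfix, hne, rfl⟩ := h1 g hg
  have h3 : ¬ ∀ u ∈ V, k u = u := by
    intro h4
    apply hne
    ext1 y
    rw [Perm.one_apply]
    by_cases hy : y ∈ V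
    · exact h4 y hy
    · exact hfix y hy
  obtain ⟨V1, p, V2, hV, hV1, hp⟩ := exists_split V k h3
  rw [hV, key_split _ _ _ _ hV1 hp, Finset.mem_image]
  refine ⟨(p, k p), ?_, rfl⟩
  rw [Finset.mem_product, Set.Finite.mem_toFinset, Set.Finite.mem_toFinset]
  exact ⟨⟨k, hk, hp⟩, ⟨k, hk, fun h4 => hp (k.injective h4)⟩⟩

end Pool.Agent.W_d799b0_g54
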